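import Pool.Agent.H25.MF.Targets

/-!
Row AB of board mf.
-/

set_option autoImplicit false

open Complex MeasureTheory Filter Topology

namespace Pool.Agent.H25.MF

theorem pf_AB (hTP : T_TP) (hKE : T_KE) (hRE : T_RE) (hGB : T_GB) (hSP : T_SP) (hLP : T_LP)
    (hLK : T_LK) (hAT : T_AT) (hAG : T_AG) (hSY : T_SY) : T_AB := by
  intro g H hy c hc v hv
  obtain ⟨K, Kh, hK⟩ := hKE
  -- bound for the smoothed function
  have key : ∀ τ : ℝ, 0 < τ → ∀ v₀ : ℝ, sm g τ v₀ ≤ c := by
    intro τ hτ v₀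
    obtain ⟨hs1, hs2, hs3⟩ := hSP g hy.gr τ hτ
    have hcont : Continuous (sm g τ) := by
      have : sm g τ = fun v => smp g τ v + smm g τ v := funext hs3
      rw [this]
      exact hs1.add hs2
    obtain ⟨C, hC⟩ := hGB g H hy τ hτ
    have hbd : ∃ C : ℝ, ∀ v, |sm g τ v| ≤ C * (1 + |v|) := by
      refine ⟨2 * C, fun v => ?_⟩
      rw [hs3 v]
      have h1 := (hC v).1
      have h2 := (hC v).2.2.1
      have h3 := abs_add_le (smp g τ v) (smm g τ v)
      linarith
    have hev : EvLe (sm g τ) c := hLP g hy.gr c τ hc hτ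
    have hT : ∀ T : ℝ, 0 < T → ∫ v, sm g τ v * (T * K (T * (v₀ - v))) ≤ c := by
      intro T hT
      have hKT := hSY.2.2 K Kh hK T hT
      obtain ⟨S, a, hp⟩ := hTP g H hy τ T _ _ hτ hKT
      have hev2 := hLK (sm g τ) hcont hbd c hev _ _ T hKT
      refine le_of_forall_pos_le_add fun ε hε => ?_
      have h1 := hev2 (ε / 2) (by positivity)
      obtain ⟨V, hV⟩ := eventually_atTop.mp h1
      obtain ⟨L, hL, hr⟩ := hRE S a (ε / 2) (by positivity)
      obtain ⟨w, hw1, hw2, hw3⟩ := hr v₀ V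
      rw [← hp w, ← hp v₀] at hw3
      have h2 := hV w hw1
      rw [← Complex.ofReal_sub, Complex.norm_real, Real.norm_eq_abs, abs_lt] at hw3
      have h3 := hw3.1
      simp only at h2
      linarith
    have hlim := hAT (sm g τ) hcont hbd K Kh hK v₀
    refine le_of_tendsto hlim ?_
    filter_upwards [eventually_gt_atTop (0 : ℝ)] with T hT'
    exact hT T hT'
  have hlim := hAG g hy.gr v hv
  refine le_of_tendsto hlim ?_
  filter_upwards [self_mem_nhdsWithin] with τ hτ
  exact key τ hτ v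

end Pool.Agent.H25.MF
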