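import Pool.Agent.H25.MF.HY

/-!
Rows HP, HM of board mf.
-/

set_option autoImplicit false

open Complex MeasureTheory Filter Topology

namespace Pool.Agent.H25.MF

theorem hf_an_real (hYA : T_YA) (hRN : T_RN) (x : ℝ) (h1 : -(3 / 4) ≤ x) :
    AnalyticAt ℂ Hf x := by
  apply hf_an hYA
  · simp
    linarith
  by_cases h : (x : ℂ) + 1 / 2 = 1
  · exact Or.inl h
  right
  have h2 : ((x : ℂ) + 1 / 2) = ((x + 1 / 2 : ℝ) : ℂ) := by push_cast; ring
  rw [h2]
  apply hRN
  · linarith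
  · intro h3
    apply h
    rw [h2, h3]
    simp

theorem pf_HP (hRL : T_RL) (hTC : T_TC) (hDO : T_DO) (hGT : T_GT) (hYA : T_YA) (hRN : T_RN)
    (hRB : T_RB) (hHG : T_HG) (hNV : T_NV) (hRF : T_RF) (hHY : T_HY) : T_HP := by
  intro J c A hD k V hk
  have hJ : ∀ a ∈ J, 0 < a := fun a ha => (hD.2.1 a ha).1
  have hgr : Gr gf := hRB.2.2
  obtain ⟨hg, htc, -⟩ := hTC J c hJ gf Hf hgr
  obtain ⟨hne, κ, hκ, hlow⟩ := hDO.1 J c A hD
  obtain ⟨hd1, hd2, C₁, hC₁⟩ := hDO.2 J c hJ gf hgr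
  obtain ⟨F, C, hF1, hF2, hF3⟩ := hRL (gL J c gf) k V (HL J c gf Hf) hg hk
    (fun z hz _ => htc z hz (hGT.1 z hz)) (by
      intro x hx1 hx2
      have h1 : AnalyticAt ℂ (DL J c) (x : ℂ) := hd1.analyticAt _
      have h2 : AnalyticAt ℂ (JL J c gf) (x : ℂ) := hd2.analyticAt _
      exact (h1.mul (hf_an_real hYA hRN x (by linarith))).sub h2)
  set G : ℂ → ℂ := fun z => (F z + JL J c gf z) / DL J c z with hG
  have hGd : ∀ z : ℂ, 0 < z.re → DifferentiableAt ℂ G z := by
    intro z hz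
    exact ((hF1 z hz).add (hd2 z)).div (hd1 z) (hne z hz.le)
  have hGe : ∀ z : ℂ, 5 / 8 < z.re → z.re < 1 → G z = Hf z := by
    intro z h1 h2
    have h3 : DL J c z ≠ 0 := hne z (by linarith)
    simp only [hG, hF2 z h1 h2, HL]
    field_simp
    ring
  obtain ⟨hR, hGH⟩ := hHG G hGd hGe
  have hB : BR 0 := by
    refine ⟨(|C| + |C₁|) / κ, fun z h1 h2 => ?_⟩
    rw [← hGH z h1]
    have h3 := hlow z h1.le h2
    have h4 : ‖F z‖ ≤ |C| / z.re := (hF3 z h1 h2).trans (by gcongr; exact le_abs_self _)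
    have h5 : ‖JL J c gf z‖ ≤ |C₁| / z.re := by
      have h6 := (hC₁ z (by rw [abs_of_pos h1]; linarith)).2
      have h7 : |C₁| ≤ |C₁| / z.re := by
        rw [le_div_iff₀ h1]
        have := abs_nonneg C₁
        nlinarith
      exact h6.trans ((le_abs_self _).trans h7)
    have h8 : ‖F z + JL J c gf z‖ ≤ (|C| + |C₁|) / z.re := by
      refine (norm_add_le _ _).trans ?_
      rw [add_div]
      exact add_le_add h4 h5
    simp only [hG, norm_div, pow_zero, mul_one]
    calc ‖F z + JL J c gf z‖ / ‖DL J c z‖ ≤ ((|C| + |C₁|) / z.re) / κ := by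
          gcongr
      _ = (|C| + |C₁|) / κ / z.re := by ring
  exact hHY hR ⟨0, hB⟩ ((hRF hR (hNV.mp hR)).1 hB)

theorem pf_HM (hRL : T_RL) (hGT : T_GT) (hYA : T_YA) (hRN : T_RN)
    (hRB : T_RB) (hHH : T_HH) (hNV : T_NV) (hRF : T_RF) (hHY : T_HY) : T_HM := by
  intro e he k V hk
  obtain ⟨hm, B, hB⟩ := hRB.2.2
  have he1 : |e| = 1 := by rcases he with h | h <;> simp [h]
  have he2 : (e : ℂ) * e = 1 := by
    rcases he with h | h <;> simp [h]
  have hg : Gr (fun v => e * gf (-v)) := by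
    refine ⟨(hm.comp measurable_neg).const_mul e, B, fun v => ?_⟩
    rw [abs_mul, he1, one_mul]
    simpa using hB (-v)
  obtain ⟨F, C, hF1, hF2, hF3⟩ := hRL (fun v => e * gf (-v)) k V (fun z => -(e * Hf (-z))) hg hk
    (by
      intro z h1 h2
      have h3 := hGT.2 (-z) (by simp; linarith) (by simp; linarith)
      rw [h3]
      have h4 := integral_comp_neg_Ioi (E := ℂ) (c := (0 : ℝ))
        (f := fun v : ℝ => (e : ℂ) * ((gf v : ℂ) * cexp (-(-z * v))))
      rw [neg_zero] at h4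
      rw [mul_neg, neg_neg, ← integral_const_mul, ← integral_Iic_eq_integral_Iio, ← h4]
      apply integral_congr_ae
      filter_upwards with v
      push_cast
      ring_nf) (by
      intro x hx1 hx2
      have h1 : AnalyticAt ℂ Hf (-(x : ℂ)) := by
        have := hf_an_real hYA hRN (-x) (by linarith)
        simpa using this
      have h2 : AnalyticAt ℂ (fun z : ℂ => Hf (-z)) (x : ℂ) :=
        AnalyticAt.fun_comp (f := fun w : ℂ => -w) h1 analyticAt_id.neg
      exact (analyticAt_const.mul h2).neg)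
  set G : ℂ → ℂ := fun z => -(e * F (-z)) with hG
  have hGd : ∀ z : ℂ, z.re < 0 → DifferentiableAt ℂ G z := by
    intro z hz
    have h1 : DifferentiableAt ℂ F (-z) := hF1 (-z) (by simpa using hz)
    have h2 : DifferentiableAt ℂ (fun w : ℂ => F (-w)) z :=
      DifferentiableAt.fun_comp' z h1 differentiableAt_id.neg
    exact (h2.const_mul (e : ℂ)).neg
  have hGe : ∀ z : ℂ, -1 < z.re → z.re < -(5 / 8) → G z = Hf z := by
    intro z h1 h2
    simp only [hG]
    rw [hF2 (-z) (by simp; linarith) (by simp; linarith)]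
    simp only [neg_neg, mul_neg]
    rw [← mul_assoc, he2, one_mul]
  obtain ⟨hL, hGH⟩ := hHH G hGd hGe
  have hB : BL 0 := by
    refine ⟨C, fun z h1 h2 => ?_⟩
    rw [← hGH z (by linarith) h2]
    have h3 := hF3 (-z) (by simpa using h2) (by simp; linarith)
    simp only [hG, norm_neg, norm_mul, Complex.norm_real, Real.norm_eq_abs, he1, one_mul,
      pow_zero, mul_one]
    rw [abs_of_neg h2]
    simpa using h3
  have hR : NZR := hNV.mpr hL
  exact hHY hR ((hRF hR hL).2 hB) ⟨0, hB⟩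

end Pool.Agent.H25.MF
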