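import Pool.Agent.H25.MF.Targets

/-!
Row MR of board mf.
-/

set_option autoImplicit false

open Complex MeasureTheory Filter Topology

namespace Pool.Agent.H25.MF

/-- Scaling of the complex integral. -/
theorem scale_c (s : ℂ) (c : ℝ) (hc : 0 < c) :
    ∫ y in Set.Ioi (0 : ℝ), (Cin (c * y) : ℂ) * (y : ℂ) ^ (s - 1) =
      (c : ℂ) ^ (-s) * ∫ w in Set.Ioi (0 : ℝ), (Cin w : ℂ) * (w : ℂ) ^ (s - 1) := by
  have h1 := integral_comp_mul_left_Ioi (fun w : ℝ => (Cin w : ℂ) * (w : ℂ) ^ (s - 1)) 0 hc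
  rw [mul_zero] at h1
  have hc' : (c : ℂ) ≠ 0 := by exact_mod_cast hc.ne'
  have h2 : ∫ y in Set.Ioi (0 : ℝ), (Cin (c * y) : ℂ) * (y : ℂ) ^ (s - 1) =
      ∫ y in Set.Ioi (0 : ℝ), (c : ℂ) ^ (1 - s) * ((Cin (c * y) : ℂ) * ((c * y : ℝ) : ℂ) ^ (s - 1)) := by
    refine setIntegral_congr_fun measurableSet_Ioi fun y hy => ?_
    have hy0 : (0 : ℝ) < y := hy
    rw [Complex.ofReal_mul, Complex.mul_cpow_ofReal_nonneg hc.le hy0.le]
    have h3 : (c : ℂ) ^ (1 - s) * (c : ℂ) ^ (s - 1) = 1 := by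
      rw [← Complex.cpow_add _ _ hc']
      simp
    calc (Cin (c * y) : ℂ) * (y : ℂ) ^ (s - 1) = 1 * ((Cin (c * y) : ℂ) * (y : ℂ) ^ (s - 1)) := by ring
      _ = ((c : ℂ) ^ (1 - s) * (c : ℂ) ^ (s - 1)) * ((Cin (c * y) : ℂ) * (y : ℂ) ^ (s - 1)) := by rw [h3]
      _ = _ := by ring
  rw [h2, integral_const_mul, h1, Complex.real_smul, ← mul_assoc]
  congr 1
  have h4 : (c : ℂ) ^ (1 - s) = c * (c : ℂ) ^ (-s) := by
    rw [sub_eq_add_neg, Complex.cpow_add _ _ hc', Complex.cpow_one]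
  rw [h4]
  push_cast
  field_simp

/-- Scaling of the norms. -/
theorem scale_n (s : ℂ) (c : ℝ) (hc : 0 < c) :
    ∫ y in Set.Ioi (0 : ℝ), ‖(Cin (c * y) : ℂ) * (y : ℂ) ^ (s - 1)‖ =
      c ^ (-s.re) * ∫ w in Set.Ioi (0 : ℝ), ‖(Cin w : ℂ) * (w : ℂ) ^ (s - 1)‖ := by
  have h1 := integral_comp_mul_left_Ioi (fun w : ℝ => ‖(Cin w : ℂ) * (w : ℂ) ^ (s - 1)‖) 0 hc
  rw [mul_zero] at h1
  have h2 : ∫ y in Set.Ioi (0 : ℝ), ‖(Cin (c * y) : ℂ) * (y : ℂ) ^ (s - 1)‖ =
      ∫ y in Set.Ioi (0 : ℝ), c ^ (1 - s.re) * ‖(Cin (c * y) : ℂ) * ((c * y : ℝ) : ℂ) ^ (s - 1)‖ := by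
    refine setIntegral_congr_fun measurableSet_Ioi fun y hy => ?_
    have hy0 : (0 : ℝ) < y := hy
    simp only [norm_mul]
    rw [Complex.norm_cpow_eq_rpow_re_of_pos hy0, Complex.norm_cpow_eq_rpow_re_of_pos (mul_pos hc hy0),
      Real.mul_rpow hc.le hy0.le]
    have h3 : c ^ (1 - s.re) * c ^ ((s - 1).re) = 1 := by
      rw [← Real.rpow_add hc]
      simp
    calc ‖(Cin (c * y) : ℂ)‖ * y ^ ((s - 1).re) = 1 * (‖(Cin (c * y) : ℂ)‖ * y ^ ((s - 1).re)) := by ring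
      _ = (c ^ (1 - s.re) * c ^ ((s - 1).re)) * (‖(Cin (c * y) : ℂ)‖ * y ^ ((s - 1).re)) := by rw [h3]
      _ = _ := by ring
  rw [h2, integral_const_mul, h1, smul_eq_mul, ← mul_assoc]
  congr 1
  rw [sub_eq_add_neg, Real.rpow_add hc, Real.rpow_one]
  field_simp

theorem int_scale (s : ℂ) (c : ℝ) (hc : 0 < c)
    (h : IntegrableOn (fun w : ℝ => (Cin w : ℂ) * (w : ℂ) ^ (s - 1)) (Set.Ioi 0)) :
    IntegrableOn (fun y : ℝ => (Cin (c * y) : ℂ) * (y : ℂ) ^ (s - 1)) (Set.Ioi 0) := by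
  have h1 : IntegrableOn (fun y : ℝ => (Cin (c * y) : ℂ) * ((c * y : ℝ) : ℂ) ^ (s - 1)) (Set.Ioi 0) := by
    have h2 := (integrableOn_Ioi_comp_mul_left_iff (fun w : ℝ => (Cin w : ℂ) * (w : ℂ) ^ (s - 1)) 0 hc).mpr
    rw [mul_zero] at h2
    exact h2 h
  have h3 : IntegrableOn (fun y : ℝ => (c : ℂ) ^ (1 - s) *
      ((Cin (c * y) : ℂ) * ((c * y : ℝ) : ℂ) ^ (s - 1))) (Set.Ioi 0) := h1.const_mul _
  refine h3.congr_fun (fun y hy => ?_) measurableSet_Ioi
  have hc' : (c : ℂ) ≠ 0 := by exact_mod_cast hc.ne'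
  have hy0 : (0 : ℝ) < y := hy
  simp only
  rw [Complex.ofReal_mul, Complex.mul_cpow_ofReal_nonneg hc.le hy0.le]
  have h3 : (c : ℂ) ^ (1 - s) * (c : ℂ) ^ (s - 1) = 1 := by
    rw [← Complex.cpow_add _ _ hc']
    simp
  calc _ = ((c : ℂ) ^ (1 - s) * (c : ℂ) ^ (s - 1)) * ((Cin (c * y) : ℂ) * (y : ℂ) ^ (s - 1)) := by ring
    _ = _ := by rw [h3, one_mul]

theorem R_int (hRB : T_RB) (s : ℂ) (hs1 : -1 < s.re) (hs2 : s.re < -(1 / 8)) :
    IntegrableOn (fun y : ℝ => (R y : ℂ) * (y : ℂ) ^ (s - 1)) (Set.Ioi 0) := by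
  obtain ⟨hc, ⟨C, hC⟩, -⟩ := hRB
  have hmeas : AEStronglyMeasurable (fun y : ℝ => (R y : ℂ) * (y : ℂ) ^ (s - 1))
      (volume.restrict (Set.Ioi 0)) := by
    apply Measurable.aestronglyMeasurable
    exact (Complex.measurable_ofReal.comp hc.measurable).mul
      (Complex.measurable_ofReal.pow_const _)
  have hn : ∀ y : ℝ, 0 < y → ‖(R y : ℂ) * (y : ℂ) ^ (s - 1)‖ = |R y| * y ^ (s.re - 1) := by
    intro y hy
    rw [norm_mul, Complex.norm_real, Real.norm_eq_abs, Complex.norm_cpow_eq_rpow_re_of_pos hy]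
    simp
  rw [← Set.Ioc_union_Ioi_eq_Ioi zero_le_one]
  refine IntegrableOn.union ?_ ?_
  · have h1 : IntegrableOn (fun y : ℝ => C * y ^ (s.re + 1)) (Set.Ioc 0 1) := by
      have h2 := (intervalIntegral.intervalIntegrable_rpow' (a := 0) (b := 1)
        (r := s.re + 1) (by linarith)).const_mul C
      rwa [intervalIntegrable_iff_integrableOn_Ioc_of_le zero_le_one] at h2
    refine Integrable.mono' h1 (hmeas.mono_set Set.Ioc_subset_Ioi_self) ?_
    rw [ae_restrict_iff' measurableSet_Ioc]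
    refine Eventually.of_forall fun y hy => ?_
    rw [hn y hy.1]
    have h2 := (hC y hy.1).2
    calc |R y| * y ^ (s.re - 1) ≤ (C * y ^ 2) * y ^ (s.re - 1) := by
          have := Real.rpow_nonneg hy.1.le (s.re - 1)
          gcongr
      _ = C * y ^ (s.re + 1) := by
          rw [mul_assoc, ← Real.rpow_natCast y 2, ← Real.rpow_add hy.1]
          congr 2
          push_cast
          ring
  · have h1 : IntegrableOn (fun y : ℝ => C * y ^ (s.re - 7 / 8)) (Set.Ioi 1) :=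
      (integrableOn_Ioi_rpow_of_lt (by linarith) one_pos).const_mul C
    refine Integrable.mono' h1 (hmeas.mono_set (Set.Ioi_subset_Ioi zero_le_one)) ?_
    rw [ae_restrict_iff' measurableSet_Ioi]
    refine Eventually.of_forall fun y hy => ?_
    have hy1 : (1 : ℝ) < y := hy
    have hy0 : (0 : ℝ) < y := by linarith
    rw [hn y hy0]
    have h2 := (hC y hy0).1
    calc |R y| * y ^ (s.re - 1) ≤ (C * y ^ (1 / 8 : ℝ)) * y ^ (s.re - 1) := by
          have := Real.rpow_nonneg hy0.le (s.re - 1)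
          gcongr
      _ = C * y ^ (s.re - 7 / 8) := by
          rw [mul_assoc, ← Real.rpow_add hy0]
          congr 2
          ring

theorem pf_MR (_hCN : T_CN) (hCO : T_CO) (hRS : T_RS) (hRB : T_RB) : T_MR := by
  intro s hs1 hs2
  refine ⟨R_int hRB s hs1 hs2, ?_⟩
  obtain ⟨hi, hv⟩ := hCO s hs1 hs2
  set F : ℕ → ℝ → ℂ := fun m y => (2 * (((ArithmeticFunction.moebius m : ℤ) : ℝ) / m : ℝ) : ℂ) *
    ((Cin (2 * Real.pi / m * y) : ℂ) * (y : ℂ) ^ (s - 1)) with hF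
  have hFe : ∀ y ∈ Set.Ioi (0 : ℝ), (R y : ℂ) * (y : ℂ) ^ (s - 1) = ∑' m, F m y := by
    intro y hy
    have h1 := ((hRS.2 y hy).mul_left 2).tsum_eq
    have h2 : R y = ∑' m : ℕ, 2 * (((ArithmeticFunction.moebius m : ℤ) : ℝ) / m *
      Cin (2 * Real.pi * y / m)) := by
      rw [h1]
      ring
    rw [h2, Complex.ofReal_tsum, ← tsum_mul_right]
    congr 1
    funext m
    simp only [hF]
    have h3 : 2 * Real.pi * y / m = 2 * Real.pi / m * y := by ring
    rw [h3]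
    push_cast
    ring
  have hc : ∀ m : ℕ, 0 < m → 0 < 2 * Real.pi / m := fun m hm => by positivity
  have hF0 : F 0 = fun _ => 0 := by
    funext y
    simp [hF]
  have hint : ∀ m, IntegrableOn (F m) (Set.Ioi 0) := by
    intro m
    rcases Nat.eq_zero_or_pos m with h | h
    · subst h
      rw [hF0]
      simp
    · exact (int_scale s _ (hc m h) hi).const_mul _
  set I₀ : ℝ := ∫ w in Set.Ioi (0 : ℝ), ‖(Cin w : ℂ) * (w : ℂ) ^ (s - 1)‖ with hI₀
  have hI₀n : 0 ≤ I₀ := integral_nonneg fun w => norm_nonneg _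
  have hsum : Summable (fun m => ∫ y in Set.Ioi (0 : ℝ), ‖F m y‖) := by
    have h1 : Summable (fun m : ℕ => 2 * (2 * Real.pi) ^ (-s.re) * I₀ * (m : ℝ) ^ (s.re - 1)) :=
      (Real.summable_nat_rpow.mpr (by linarith)).mul_left _
    refine Summable.of_nonneg_of_le (fun m => integral_nonneg fun v => norm_nonneg _) (fun m => ?_) h1
    rcases Nat.eq_zero_or_pos m with h | h
    · subst h
      rw [hF0]
      simp only [norm_zero, integral_zero]
      have := Real.rpow_nonneg (by positivity : (0 : ℝ) ≤ 2 * Real.pi) (-s.re)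
      have := Real.rpow_nonneg (by simp : (0 : ℝ) ≤ ((0 : ℕ) : ℝ)) (s.re - 1)
      positivity
    · have h2 : ∀ y : ℝ, ‖F m y‖ = ‖(2 * (((ArithmeticFunction.moebius m : ℤ) : ℝ) / m : ℝ) : ℂ)‖ *
          ‖(Cin (2 * Real.pi / m * y) : ℂ) * (y : ℂ) ^ (s - 1)‖ := fun y => norm_mul _ _
      simp only [h2]
      rw [integral_const_mul, scale_n s _ (hc m h)]
      have hm : (0 : ℝ) < m := by exact_mod_cast h
      have h3 : ‖(2 * (((ArithmeticFunction.moebius m : ℤ) : ℝ) / m : ℝ) : ℂ)‖ ≤ 2 * (1 / m) := by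
        rw [norm_mul, Complex.norm_real, norm_div, Real.norm_eq_abs, Real.norm_eq_abs,
          abs_of_pos hm]
        have h4 : |((ArithmeticFunction.moebius m : ℤ) : ℝ)| ≤ 1 := by
          exact_mod_cast ArithmeticFunction.abs_moebius_le_one
        simp only [Complex.norm_ofNat]
        gcongr
      have h5 : (2 * Real.pi / m) ^ (-s.re) = (2 * Real.pi) ^ (-s.re) * (m : ℝ) ^ s.re := by
        rw [Real.div_rpow (by positivity) hm.le, Real.rpow_neg hm.le]
        field_simp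
      rw [h5]
      have h6 : (m : ℝ) ^ (s.re - 1) = (m : ℝ) ^ s.re / m := by
        rw [Real.rpow_sub_one hm.ne']
      rw [h6]
      have h7 : 0 ≤ (2 * Real.pi) ^ (-s.re) * (m : ℝ) ^ s.re * I₀ := by positivity
      calc _ ≤ 2 * (1 / (m : ℝ)) * ((2 * Real.pi) ^ (-s.re) * (m : ℝ) ^ s.re * I₀) := by gcongr
        _ = _ := by ring
  have h1 := (hasSum_integral_of_summable_integral_norm hint hsum).tsum_eq
  rw [setIntegral_congr_fun measurableSet_Ioi hFe, ← h1]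
  have hre : 1 < (1 - s).re := by
    simp
    linarith
  have h2 : ∀ m : ℕ, ∫ y in Set.Ioi (0 : ℝ), F m y = (2 * ((2 * Real.pi : ℝ) : ℂ) ^ (-s) *
      (Complex.Gamma s * Complex.cos (Real.pi * s / 2) / s)) *
      LSeries.term (fun n => ((ArithmeticFunction.moebius n : ℤ) : ℂ)) (1 - s) m := by
    intro m
    rcases Nat.eq_zero_or_pos m with h | h
    · subst h
      rw [hF0]
      simp
    · have hm : (0 : ℝ) < m := by exact_mod_cast h
      have hm' : (m : ℂ) ≠ 0 := by exact_mod_cast hm.ne'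
      simp only [hF]
      rw [integral_const_mul, scale_c s _ (hc m h), hv, LSeries.term_of_ne_zero (by omega)]
      have h3 : ((2 * Real.pi : ℝ) : ℂ) ^ (-s) = ((2 * Real.pi / m : ℝ) : ℂ) ^ (-s) * (m : ℂ) ^ (-s) := by
        have h4 := Complex.mul_cpow_ofReal_nonneg (hc m h).le hm.le (-s)
        rw [← Complex.ofReal_mul, div_mul_cancel₀ _ hm.ne'] at h4
        simpa using h4
      have h5 : (m : ℂ) ^ (1 - s) = m * (m : ℂ) ^ (-s) := by
        rw [sub_eq_add_neg, Complex.cpow_add _ _ hm', Complex.cpow_one]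
      have h6 : (m : ℂ) ^ (-s) ≠ 0 := by
        rw [Ne, Complex.cpow_eq_zero_iff]
        simp [hm']
      rw [h3, h5]
      push_cast
      field_simp
  simp only [h2]
  rw [tsum_mul_left]
  have h3 : ∑' m : ℕ, LSeries.term (fun n => ((ArithmeticFunction.moebius n : ℤ) : ℂ)) (1 - s) m =
      (riemannZeta (1 - s))⁻¹ := by
    have h4 := ArithmeticFunction.LSeries_zeta_mul_Lseries_moebius hre
    rw [ArithmeticFunction.LSeries_zeta_eq_riemannZeta hre] at h4
    exact eq_inv_of_mul_eq_one_right h4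
  rw [h3]
  have h4 := riemannZeta_one_sub (s := s) (by
    intro n hn
    rcases Nat.eq_zero_or_pos n with h | h
    · subst h
      rw [hn] at hs2
      simp at hs2
      linarith
    · have h5 : (1 : ℝ) ≤ n := by exact_mod_cast h
      rw [hn] at hs1
      simp at hs1
      linarith) (by
    intro h
    rw [h] at hs2
    simp at hs2
    linarith)
  have h5 : riemannZeta (1 - s) ≠ 0 := riemannZeta_ne_zero_of_one_le_re hre.le
  rw [h4] at h5 ⊢
  have hs0 : s ≠ 0 := by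
    intro h
    rw [h] at hs2
    simp at hs2
    linarith
  push_cast
  have h6 : (2 * (2 * (Real.pi : ℂ)) ^ (-s) * Complex.Gamma s * Complex.cos (Real.pi * s / 2)) ≠ 0 :=
    left_ne_zero_of_mul h5
  have h7 : riemannZeta s ≠ 0 := right_ne_zero_of_mul h5
  rw [mul_inv]
  have h8 : 2 * (2 * (Real.pi : ℂ)) ^ (-s) * (Complex.Gamma s * Complex.cos (Real.pi * s / 2) / s) =
      (2 * (2 * (Real.pi : ℂ)) ^ (-s) * Complex.Gamma s * Complex.cos (Real.pi * s / 2)) / s := by ring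
  rw [h8, div_mul_eq_mul_div, ← mul_assoc, mul_inv_cancel₀ h6, one_mul]
  field_simp

end Pool.Agent.H25.MF
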