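import Pool.Agent.H25.MF.Targets

/-!
Row PS of board mf.
-/

set_option autoImplicit false

open Complex MeasureTheory Filter Topology

namespace Pool.Agent.H25.MF

theorem r_zero : r 0 = 0 := by simp [r]

theorem sum_abs_r (hRS : T_RS) : Summable (fun n : ℕ => |r n|) := by
  simpa using hRS.1 1

theorem R_cont_of (hRS : T_RS) : Continuous R := by
  rw [continuous_iff_continuousAt]
  intro y
  have h1 : ContinuousOn R (Set.Icc (-(|y| + 1)) (|y| + 1)) := by
    refine continuousOn_tsum (u := fun n => |r n * (|y| + 1) ^ (2 * n)|) ?_ (hRS.1 _) ?_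
    · intro n
      fun_prop
    · intro n x hx
      rw [Real.norm_eq_abs, abs_mul, abs_mul, abs_pow, abs_pow]
      have h2 : |x| ≤ |(|y| + 1)| := by
        rw [abs_of_nonneg (by positivity : (0 : ℝ) ≤ |y| + 1)]
        exact abs_le.mpr ⟨hx.1, hx.2⟩
      gcongr
  refine h1.continuousAt (Icc_mem_nhds ?_ ?_)
  · linarith [neg_abs_le y]
  · linarith [le_abs_self y]

theorem term_le (n : ℕ) (s : ℂ) (hs : -1 < s.re) : ‖(r n : ℂ) / (s + 2 * n)‖ ≤ |r n| := by
  rcases Nat.eq_zero_or_pos n with h | h
  · subst h
    simp [r_zero]
  · have h1 : (1 : ℝ) ≤ n := by exact_mod_cast h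
    have h2 : (1 : ℝ) ≤ ‖s + 2 * n‖ := by
      refine le_trans ?_ (Complex.re_le_norm _)
      simp
      linarith
    rw [norm_div, Complex.norm_real, Real.norm_eq_abs]
    exact div_le_self (abs_nonneg _) h2

theorem pf_PS (hRS : T_RS) : T_PS := by
  have hsr := sum_abs_r hRS
  refine ⟨fun s hs => ?_, fun s hs => ?_, ?_⟩
  · set F : ℕ → ℝ → ℂ := fun n v => (r n : ℂ) * cexp (-(s + 2 * n) * v) with hF
    have hFe : ∀ v : ℝ, (R (Real.exp (-v)) : ℂ) * cexp (-(s * v)) = ∑' n, F n v := by
      intro v
      rw [R, Complex.ofReal_tsum, ← tsum_mul_right]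
      congr 1
      funext n
      simp only [hF]
      rw [Complex.ofReal_mul, mul_assoc, Complex.ofReal_pow, Complex.ofReal_exp, ← Complex.exp_nat_mul,
        ← Complex.exp_add]
      congr 2
      push_cast
      ring
    have hint : ∀ n, IntegrableOn (F n) (Set.Ioi 0) := by
      intro n
      rcases Nat.eq_zero_or_pos n with h | h
      · subst h
        simp only [hF, r_zero]
        simp
      · have h1 : (1 : ℝ) ≤ n := by exact_mod_cast h
        refine (integrableOn_exp_mul_complex_Ioi ?_ 0).const_mul _
        simp
        linarith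
    have hnorm : ∀ n, ∫ v in Set.Ioi (0 : ℝ), ‖F n v‖ ≤ |r n| := by
      intro n
      rcases Nat.eq_zero_or_pos n with h | h
      · subst h
        simp [hF, r_zero]
      · have h1 : (1 : ℝ) ≤ n := by exact_mod_cast h
        have h2 : ∀ v : ℝ, ‖F n v‖ = |r n| * Real.exp (-(s.re + 2 * n) * v) := by
          intro v
          simp only [hF]
          rw [norm_mul, Complex.norm_real, Real.norm_eq_abs, Complex.norm_exp]
          simp
        simp only [h2]
        rw [integral_const_mul, integral_exp_mul_Ioi (by linarith)]
        simp only [mul_zero, Real.exp_zero]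
        have h3 : -1 / -(s.re + 2 * n) ≤ 1 := by
          rw [neg_div_neg_eq, div_le_one (by linarith)]
          linarith
        calc |r n| * (-1 / -(s.re + 2 * n)) ≤ |r n| * 1 := by gcongr
          _ = |r n| := mul_one _
    have hsum : Summable (fun n => ∫ v in Set.Ioi (0 : ℝ), ‖F n v‖) :=
      Summable.of_nonneg_of_le (fun n => integral_nonneg fun v => norm_nonneg _) hnorm hsr
    have h1 := hasSum_integral_of_summable_integral_norm hint hsum
    simp only [← hFe] at h1
    constructor
    · -- integrability
      have hb : IntegrableOn (fun v : ℝ => (∑' n, |r n|) * Real.exp (-(s.re + 2) * v)) (Set.Ioi 0) :=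
        (integrableOn_exp_mul_Ioi (by linarith) 0).const_mul _
      refine Integrable.mono' hb ?_ ?_
      · apply Continuous.aestronglyMeasurable
        have := R_cont_of hRS
        fun_prop
      · rw [ae_restrict_iff' measurableSet_Ioi]
        refine Eventually.of_forall fun v hv => ?_
        have hv0 : (0 : ℝ) < v := hv
        rw [hFe]
        have h2 : ∀ n, ‖F n v‖ ≤ |r n| * Real.exp (-(s.re + 2) * v) := by
          intro n
          simp only [hF]
          rw [norm_mul, Complex.norm_real, Real.norm_eq_abs, Complex.norm_exp]
          rcases Nat.eq_zero_or_pos n with h | h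
          · subst h
            simp [r_zero]
          · have h1 : (1 : ℝ) ≤ n := by exact_mod_cast h
            gcongr
            simp
            nlinarith
        have h3 : Summable (fun n => |r n| * Real.exp (-(s.re + 2) * v)) := hsr.mul_right _
        have h4 : Summable (fun n => ‖F n v‖) :=
          Summable.of_nonneg_of_le (fun n => norm_nonneg _) h2 h3
        calc ‖∑' n, F n v‖ ≤ ∑' n, ‖F n v‖ := norm_tsum_le_tsum_norm h4
          _ ≤ ∑' n, |r n| * Real.exp (-(s.re + 2) * v) := h4.tsum_le_tsum h2 h3
          _ = _ := tsum_mul_right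
    · rw [← h1.tsum_eq, Pf]
      congr 1
      funext n
      rcases Nat.eq_zero_or_pos n with h | h
      · subst h
        simp [hF, r_zero]
      · have h2 : (1 : ℝ) ≤ n := by exact_mod_cast h
        simp only [hF]
        rw [integral_const_mul, integral_exp_mul_complex_Ioi (by simp; linarith)]
        simp only [Complex.ofReal_zero, mul_zero, Complex.exp_zero]
        rw [neg_div_neg_eq, mul_one_div]
  · have h1 : DifferentiableOn ℂ Pf {w : ℂ | -1 < w.re} := by
      refine differentiableOn_tsum_of_summable_norm hsr ?_
        (isOpen_lt continuous_const Complex.continuous_re) ?_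
      · intro n w hw
        rcases Nat.eq_zero_or_pos n with h | h
        · subst h
          simp only [r_zero, Complex.ofReal_zero, zero_div]
          exact differentiableWithinAt_const _
        · have h2 : (1 : ℝ) ≤ n := by exact_mod_cast h
          have hw' : -1 < w.re := hw
          have h3 : w + 2 * n ≠ 0 := by
            intro h4
            have h5 := congrArg Complex.re h4
            simp at h5
            linarith
          have h6 : DifferentiableAt ℂ (fun w : ℂ => w + 2 * n) w := by fun_prop
          exact ((differentiableAt_const _).div h6 h3).differentiableWithinAt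
      · intro n w hw
        exact term_le n w hw
    exact h1.analyticAt ((isOpen_lt continuous_const Complex.continuous_re).mem_nhds hs)
  · refine ⟨∑' n, |r n|, fun s hs => ?_⟩
    have h4 : Summable (fun n => ‖(r n : ℂ) / (s + 2 * n)‖) :=
      Summable.of_nonneg_of_le (fun n => norm_nonneg _) (fun n => term_le n s hs) hsr
    exact (norm_tsum_le_tsum_norm h4).trans (h4.tsum_le_tsum (fun n => term_le n s hs) hsr)

end Pool.Agent.H25.MF
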