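import Pool.Agent.H25.MF.Targets

/-!
Row RS of board mf.
-/

set_option autoImplicit false

open Complex MeasureTheory Filter Topology

namespace Pool.Agent.H25.MF

/-- The real zeta value. -/
noncomputable def zr (k : ℕ) : ℝ := ∑' m : ℕ, 1 / (m : ℝ) ^ k

/-- The real Moebius sum. -/
noncomputable def mr (k : ℕ) : ℝ := ∑' m : ℕ, ((ArithmeticFunction.moebius m : ℤ) : ℝ) / (m : ℝ) ^ k

theorem zr_cast {k : ℕ} (hk : 1 < k) : riemannZeta k = (zr k : ℂ) := by
  rw [zeta_nat_eq_tsum_of_gt_one hk, zr, Complex.ofReal_tsum]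
  congr 1
  funext m
  push_cast
  rfl

theorem sum_pow {k : ℕ} (hk : 1 < k) : Summable (fun m : ℕ => 1 / (m : ℝ) ^ k) :=
  Real.summable_one_div_nat_pow.mpr hk

theorem one_le_zr {k : ℕ} (hk : 1 < k) : 1 ≤ zr k := by
  have h := (sum_pow hk).le_tsum 1 (fun j _ => by positivity)
  simpa [zr] using h

theorem mu_le (m : ℕ) : |((ArithmeticFunction.moebius m : ℤ) : ℝ)| ≤ 1 := by
  exact_mod_cast ArithmeticFunction.abs_moebius_le_one

theorem sum_mu {k : ℕ} (hk : 1 < k) :
    Summable (fun m : ℕ => ((ArithmeticFunction.moebius m : ℤ) : ℝ) / (m : ℝ) ^ k) := by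
  refine Summable.of_norm_bounded (sum_pow hk) fun m => ?_
  rw [norm_div, Real.norm_eq_abs, Real.norm_eq_abs, abs_of_nonneg (by positivity : (0 : ℝ) ≤ (m : ℝ) ^ k)]
  gcongr
  exact mu_le m

theorem mr_cast (k : ℕ) :
    LSeries (fun n => ((ArithmeticFunction.moebius n : ℤ) : ℂ)) (k : ℂ) = (mr k : ℂ) := by
  rw [LSeries, mr, Complex.ofReal_tsum]
  congr 1
  funext m
  rw [LSeries.term_def]
  split_ifs with h
  · subst h
    simp
  · rw [Complex.cpow_natCast]
    push_cast
    rfl

theorem zr_mul_mr {k : ℕ} (hk : 1 < k) : zr k * mr k = 1 := by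
  have hk' : 1 < ((k : ℂ)).re := by simpa using hk
  have h1 := ArithmeticFunction.LSeries_zeta_mul_Lseries_moebius hk'
  rw [ArithmeticFunction.LSeries_zeta_eq_riemannZeta hk', zr_cast hk] at h1
  have h2 := mr_cast k
  rw [h2] at h1
  exact_mod_cast h1

theorem r_eq (n : ℕ) : r n = (-1) ^ (n + 1) * (2 * Real.pi) ^ (2 * n) /
    (((2 * n).factorial : ℝ) * n) * mr (2 * n + 1) := by
  rcases Nat.eq_zero_or_pos n with h | h
  · subst h
    simp [r]
  · have hk : 1 < 2 * n + 1 := by omega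
    have h1 : riemannZeta (2 * n + 1) = (zr (2 * n + 1) : ℂ) := by
      rw [← zr_cast hk]
      push_cast
      rfl
    have h2 := zr_mul_mr hk
    have h3 : zr (2 * n + 1) ≠ 0 := by
      have := one_le_zr hk
      positivity
    have h4 : mr (2 * n + 1) = (zr (2 * n + 1))⁻¹ := by
      field_simp
      linarith
    rw [r, h1, Complex.ofReal_re, h4]
    have h5 : (n : ℝ) ≠ 0 := by positivity
    field_simp

theorem r_abs (n : ℕ) : |r n| ≤ (2 * Real.pi) ^ (2 * n) / (2 * n).factorial := by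
  rcases Nat.eq_zero_or_pos n with h | h
  · subst h
    simp [r]
  · have hk : 1 < 2 * n + 1 := by omega
    have h1 : riemannZeta (2 * n + 1) = (zr (2 * n + 1) : ℂ) := by
      rw [← zr_cast hk]
      push_cast
      rfl
    have h3 := one_le_zr hk
    have h5 : (1 : ℝ) ≤ n := by exact_mod_cast h
    have h6 : (0 : ℝ) < (2 * n).factorial := by positivity
    rw [r, h1, Complex.ofReal_re, abs_div, abs_mul, abs_pow, abs_neg, abs_one, one_pow, one_mul,
      abs_of_nonneg (by positivity : (0 : ℝ) ≤ (2 * Real.pi) ^ (2 * n)),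
      abs_of_nonneg (by positivity : (0 : ℝ) ≤ ((2 * n).factorial : ℝ) * n * zr (2 * n + 1))]
    gcongr
    calc ((2 * n).factorial : ℝ) = (2 * n).factorial * 1 * 1 := by ring
      _ ≤ ((2 * n).factorial : ℝ) * n * zr (2 * n + 1) := by gcongr

theorem sum_even (x : ℝ) : Summable (fun n : ℕ => x ^ (2 * n) / ((2 * n).factorial : ℝ)) := by
  have h1 := Real.summable_pow_div_factorial x
  exact h1.comp_injective (fun a b h => by
    have : 2 * a = 2 * b := h
    omega)

theorem sum_r (y : ℝ) : Summable (fun n : ℕ => |r n * y ^ (2 * n)|) := by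
  refine Summable.of_nonneg_of_le (fun n => abs_nonneg _) (fun n => ?_) (sum_even (2 * Real.pi * y))
  rw [abs_mul, abs_of_nonneg (by rw [pow_mul]; positivity : (0 : ℝ) ≤ y ^ (2 * n)), mul_pow (2 * Real.pi)]
  calc |r n| * y ^ (2 * n) ≤ ((2 * Real.pi) ^ (2 * n) / (2 * n).factorial) * y ^ (2 * n) := by
        gcongr
        · rw [pow_mul]; positivity
        · exact r_abs n
    _ = _ := by ring

theorem pf_RS (hCN : T_CN) : T_RS := by
  refine ⟨sum_r, fun y hy => ?_⟩
  set F : ℕ × ℕ → ℝ := fun p => ((-1) ^ (p.1 + 1) * (2 * Real.pi * y) ^ (2 * p.1) /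
    (((2 * p.1).factorial : ℝ) * (2 * p.1))) *
    (((ArithmeticFunction.moebius p.2 : ℤ) : ℝ) / (p.2 : ℝ) ^ (2 * p.1 + 1)) with hF
  have hsum : Summable F := by
    have h1 : Summable (fun p : ℕ × ℕ => ((2 * Real.pi * y) ^ (2 * p.1) / ((2 * p.1).factorial : ℝ)) *
        (1 / (p.2 : ℝ) ^ 3)) :=
      (sum_even (2 * Real.pi * y)).mul_of_nonneg (sum_pow (by norm_num : 1 < 3))
        (fun n => by positivity) (fun m => by positivity)
    refine Summable.of_norm_bounded h1 fun p => ?_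
    obtain ⟨n, m⟩ := p
    simp only [hF]
    rcases Nat.eq_zero_or_pos n with h | h
    · subst h
      simp
    rcases Nat.eq_zero_or_pos m with h' | h'
    · subst h'
      simp
    have h2 : (1 : ℝ) ≤ m := by exact_mod_cast h'
    have h3 : (1 : ℝ) ≤ n := by exact_mod_cast h
    rw [norm_mul, norm_div, norm_mul, norm_pow, norm_neg, norm_one, one_pow, one_mul, norm_div]
    simp only [Real.norm_eq_abs]
    rw [abs_of_nonneg (by positivity : (0 : ℝ) ≤ (2 * Real.pi * y) ^ (2 * n)),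
      abs_of_nonneg (by positivity : (0 : ℝ) ≤ ((2 * n).factorial : ℝ) * (2 * n)),
      abs_of_nonneg (by positivity : (0 : ℝ) ≤ (m : ℝ) ^ (2 * n + 1))]
    gcongr
    · calc ((2 * n).factorial : ℝ) = (2 * n).factorial * 1 := by ring
        _ ≤ ((2 * n).factorial : ℝ) * (2 * n) := by
            gcongr
            linarith
    · exact mu_le m
    · omega
  have h1 : HasSum (fun n : ℕ => r n * y ^ (2 * n) / 2) (∑' p, F p) := by
    refine hsum.hasSum.prod_fiberwise fun n => ?_
    rcases Nat.eq_zero_or_pos n with h | h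
    · subst h
      have h0 : r 0 = 0 := by simp [r]
      simp [hF, h0]
    have hk : 1 < 2 * n + 1 := by omega
    have h2 := (sum_mu hk).hasSum.mul_left ((-1) ^ (n + 1) * (2 * Real.pi * y) ^ (2 * n) /
      (((2 * n).factorial : ℝ) * (2 * n)))
    have h3 : r n * y ^ (2 * n) / 2 = ((-1) ^ (n + 1) * (2 * Real.pi * y) ^ (2 * n) /
      (((2 * n).factorial : ℝ) * (2 * n))) * mr (2 * n + 1) := by
      rw [r_eq, mul_pow (2 * Real.pi)]
      have h5 : (n : ℝ) ≠ 0 := by positivity
      field_simp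
    rw [h3]
    exact h2
  have h2 : HasSum (fun m : ℕ => ((ArithmeticFunction.moebius m : ℤ) : ℝ) / m *
      Cin (2 * Real.pi * y / m)) (∑' p, F p) := by
    have h3 : HasSum (fun p : ℕ × ℕ => F p.swap) (∑' p, F p) :=
      (Equiv.prodComm ℕ ℕ).hasSum_iff.mpr hsum.hasSum
    refine h3.prod_fiberwise fun m => ?_
    have h4 := (hCN.2.1 (2 * Real.pi * y / m)).mul_left
      (((ArithmeticFunction.moebius m : ℤ) : ℝ) / m)
    refine h4.congr_fun ?_
    intro n
    simp only [hF, Prod.swap_prod_mk]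
    rw [div_pow, pow_succ (m : ℝ) (2 * n)]
    field_simp
  have h3 : R y = 2 * ∑' p, F p := by
    have h4 := h1.mul_left 2
    rw [R]
    refine (HasSum.tsum_eq ?_)
    refine h4.congr_fun ?_
    intro n
    ring
  rw [h3]
  have h5 : 2 * (∑' p, F p) / 2 = ∑' p, F p := by ring
  rw [h5]
  exact h2

end Pool.Agent.H25.MF
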