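import Pool.Agent.H25.MF.Targets

/-!
Row TP of board mf.
-/

set_option autoImplicit false

open Complex MeasureTheory Filter Topology

namespace Pool.Agent.H25.MF

theorem pf_TP (hTF : T_TF) (hTL : T_TL) (hTR : T_TR) : T_TP := by
  intro g H hy τ T K Kh hτ hK
  obtain ⟨S, a, h⟩ := hTR H T hy.df (hy.lo T) τ Kh hτ hK.conth hK.supp
  refine ⟨S, a, fun v₀ => ?_⟩
  have h1 := hTL g H hy τ v₀ T K Kh hτ hK
  have h2 := h v₀
  refine tendsto_nhds_unique (h1.congr' ?_) h2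
  have h3 : Set.Ioc (0 : ℝ) (3 / 4) ∈ 𝓝[>] (0 : ℝ) :=
    Ioc_mem_nhdsGT (by norm_num)
  filter_upwards [h3] with δ hδ
  rw [hTF H hy.df hy.bd τ δ v₀ T K Kh hτ (abs_pos.mpr hδ.1.ne') (by rw [abs_of_pos hδ.1]; exact hδ.2) hK,
    hTF H hy.df hy.bd τ (-δ) v₀ T K Kh hτ (by rw [abs_neg]; exact abs_pos.mpr hδ.1.ne')
      (by rw [abs_neg, abs_of_pos hδ.1]; exact hδ.2) hK]

end Pool.Agent.H25.MF
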