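import Pool.Agent.H25.MF.Targets

/-!
Row YA of board mf.
-/

set_option autoImplicit false

open Complex MeasureTheory Filter Topology

namespace Pool.Agent.H25.MF

theorem iz_zero : iz 0 = -2 := by
  rw [iz, if_neg (by norm_num), riemannZeta_zero]
  norm_num

theorem Y_eq (s : ℂ) (hs : s ≠ 0) : Y s = (iz s + 2) / s - Pf s := by
  rw [Y, dslope_of_ne _ hs, slope_def_field, iz_zero, sub_neg_eq_add, sub_zero]

theorem zeta_an {s : ℂ} (hs : s ≠ 1) : AnalyticAt ℂ riemannZeta s := by
  have h1 : DifferentiableOn ℂ riemannZeta {1}ᶜ := fun z hz =>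
    (differentiableAt_riemannZeta (by simpa using hz)).differentiableWithinAt
  exact h1.analyticAt (isOpen_compl_singleton.mem_nhds (by simpa using hs))

theorem iz_an {s : ℂ} (hs : s = 1 ∨ riemannZeta s ≠ 0) : AnalyticAt ℂ iz s := by
  by_cases h1 : s = 1
  · subst h1
    have hne : ∀ᶠ z in 𝓝[≠] (1 : ℂ), riemannZeta z ≠ 0 := by
      have h2 := riemannZeta_residue_one.eventually_ne one_ne_zero
      filter_upwards [h2] with z hz
      exact right_ne_zero_of_mul hz
    apply Complex.analyticAt_of_differentiable_on_punctured_nhds_of_continuousAt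
    · filter_upwards [hne, self_mem_nhdsWithin] with z hz hz1
      have hz1' : z ≠ 1 := hz1
      have h3 : AnalyticAt ℂ (fun w => (riemannZeta w)⁻¹) z := (zeta_an hz1').inv hz
      have h4 : iz =ᶠ[𝓝 z] fun w => (riemannZeta w)⁻¹ := by
        filter_upwards [isOpen_compl_singleton.mem_nhds hz1'] with w hw
        rw [iz, if_neg (by simpa using hw)]
      exact (h3.congr h4.symm).differentiableAt
    · rw [continuousAt_iff_punctured_nhds]
      have h5 : iz 1 = 0 := by simp [iz]
      rw [h5]
      have h6 : Tendsto (fun z : ℂ => (z - 1) / ((z - 1) * riemannZeta z)) (𝓝[≠] 1) (𝓝 (0 / 1)) := by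
        refine Tendsto.div ?_ riemannZeta_residue_one one_ne_zero
        have h7 : ContinuousAt (fun z : ℂ => z - 1) 1 := by fun_prop
        have h8 := h7.tendsto
        rw [sub_self] at h8
        exact h8.mono_left nhdsWithin_le_nhds
      rw [zero_div] at h6
      refine h6.congr' ?_
      filter_upwards [hne, self_mem_nhdsWithin] with z hz hz1
      have hz1' : z ≠ 1 := hz1
      have hz2 : z - 1 ≠ 0 := sub_ne_zero.mpr hz1'
      rw [iz, if_neg hz1']
      field_simp
  · have h2 : riemannZeta s ≠ 0 := hs.resolve_left h1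
    have h3 : AnalyticAt ℂ (fun w => (riemannZeta w)⁻¹) s := (zeta_an h1).inv h2
    refine h3.congr ?_
    filter_upwards [isOpen_compl_singleton.mem_nhds h1] with w hw
    rw [iz, if_neg (by simpa using hw)]

theorem pf_YA (hPS : T_PS) : T_YA := by
  refine ⟨Y_eq, fun s hs h => ?_⟩
  have h1 : AnalyticAt ℂ iz s := iz_an h
  have h2 : AnalyticAt ℂ (dslope iz 0) s := by
    by_cases h0 : s = 0
    · subst h0
      obtain ⟨U, hU, hd⟩ := (h1.eventually_analyticAt.exists_mem)
      have h3 : DifferentiableOn ℂ iz U := fun z hz => (hd z hz).differentiableAt.differentiableWithinAt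
      have h4 : DifferentiableOn ℂ (dslope iz 0) U := (Complex.differentiableOn_dslope hU).mpr h3
      exact h4.analyticAt hU
    · have h3 : AnalyticAt ℂ (fun w : ℂ => (iz w + 2) / w) s :=
        (h1.add analyticAt_const).div analyticAt_id h0
      refine h3.congr ?_
      filter_upwards [isOpen_compl_singleton.mem_nhds h0] with w hw
      rw [dslope_of_ne _ (by simpa using hw), slope_def_field, iz_zero, sub_neg_eq_add, sub_zero]
  exact h2.sub (hPS.2.1 s hs)

end Pool.Agent.H25.MF
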