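import Pool.Agent.H25.MF.FIN2
import Pool.Agent.H25.MF.HP
import Pool.Agent.H25.MF.AB
import Pool.Agent.H25.MF.TP
import Pool.Agent.H25.MF.YA
import Pool.Agent.H25.MF.RS
import Pool.Agent.H25.MF.PS
import Pool.Agent.H25.MF.MR
import Pool.Agent.H78.MF.AG
import Pool.Agent.H78.MF.HH
import Pool.Agent.H23.MF.AT
import Pool.Agent.H23.MF.CN
import Pool.Agent.H23.MF.GI
import Pool.Agent.H23.MF.LK
import Pool.Agent.H23.MF.LP
import Pool.Agent.H23.MF.NV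
import Pool.Agent.H23.MF.RE
import Pool.Agent.H23.MF.SY
import Pool.Agent.H86.MF.CM
import Pool.Agent.H86.MF.TR
import Pool.Agent.H67.MF.CO
import Pool.Agent.H67.MF.SL
import Pool.Agent.H84.MF.DO
import Pool.Agent.H84.MF.TC
import Pool.Agent.H11.MF.EV
import Pool.Agent.H49.MF.GB
import Pool.Agent.H52.MF.GR
import Pool.Agent.H52.MF.RN
import Pool.Agent.H27.MF.GT
import Pool.Agent.H27.MF.HG
import Pool.Agent.H27.MF.KE
import Pool.Agent.H27.MF.LO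
import Pool.Agent.H27.MF.TF
import Pool.Agent.H10.MF.HA
import Pool.Agent.H37.MF.LA
import Pool.Agent.H37.MF.RL
import Pool.Agent.H41.MF.ME
import Pool.Agent.H94.MF.RB
import Pool.Agent.H68.MF.TL

/-!
Assembly of the rows of board mf.
-/

set_option autoImplicit false

namespace Pool.Agent.H25.MF.Asm

open Pool.Agent.H25.MF

theorem cn : T_CN := Pool.Agent.H23.MF.pf_CN

theorem rs : T_RS := pf_RS cn

theorem rb : T_RB := Pool.Agent.H94.MF.pf_RB cn rs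

theorem ps : T_PS := pf_PS rs

theorem ya : T_YA := pf_YA ps

theorem co : T_CO := Pool.Agent.H67.MF.pf_CO Pool.Agent.H86.MF.pf_CM cn

theorem mr : T_MR := pf_MR cn co rs rb

theorem gt : T_GT := Pool.Agent.H27.MF.pf_GT Pool.Agent.H41.MF.pf_ME mr ps rb ya

theorem rl : T_RL := Pool.Agent.H37.MF.pf_RL Pool.Agent.H37.MF.pf_LA

theorem fr : T_FR := Pool.Agent.H67.MF.pf_FR Pool.Agent.H23.MF.pf_GI

theorem sl : T_SL := Pool.Agent.H67.MF.pf_SL

theorem gb : T_GB := Pool.Agent.H49.MF.pf_GB fr sl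

theorem sp : T_SP := Pool.Agent.H67.MF.pf_SP

theorem tl : T_TL := Pool.Agent.H68.MF.pf_TL fr sl gb sp

theorem tp : T_TP := pf_TP Pool.Agent.H27.MF.pf_TF tl Pool.Agent.H86.MF.pf_TR

theorem ab : T_AB := pf_AB tp Pool.Agent.H27.MF.pf_KE Pool.Agent.H23.MF.pf_RE gb sp
  Pool.Agent.H23.MF.pf_LP Pool.Agent.H23.MF.pf_LK Pool.Agent.H23.MF.pf_AT Pool.Agent.H78.MF.pf_AG
  Pool.Agent.H23.MF.pf_SY

theorem rf : T_RF := Pool.Agent.H67.MF.pf_RF Pool.Agent.H52.MF.pf_GR ya ps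

theorem lo : T_LO := Pool.Agent.H27.MF.pf_LO ya ps

theorem hy : T_HY := pf_HY rb gt ya Pool.Agent.H23.MF.pf_NV lo

theorem hp : T_HP := pf_HP rl Pool.Agent.H84.MF.pf_TC Pool.Agent.H84.MF.pf_DO gt ya
  Pool.Agent.H52.MF.pf_RN rb (Pool.Agent.H27.MF.pf_HG ya ps) Pool.Agent.H23.MF.pf_NV rf hy

theorem hm : T_HM := pf_HM rl gt ya Pool.Agent.H52.MF.pf_RN rb (Pool.Agent.H78.MF.pf_HH ya ps)
  Pool.Agent.H23.MF.pf_NV rf hy

theorem ha : T_HA := Pool.Agent.H10.MF.pf_HA Pool.Agent.H84.MF.pf_TC Pool.Agent.H84.MF.pf_DO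

theorem all : All where
  hHP := hp
  hHM := hm
  hHA := ha
  hAB := ab
  hFX := Pool.Agent.H67.MF.pf_FX rb
  hEV := Pool.Agent.H11.MF.pf_EV rb
  hSY := Pool.Agent.H23.MF.pf_SY
  hRB := rb

end Pool.Agent.H25.MF.Asm
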