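import Mathlib

/-!
The Mertens function and the entire function of its explicit formula.
-/

set_option autoImplicit false

namespace Pool.Agent.H25.MF

/-- The Mertens function. -/
noncomputable def M (x : ℝ) : ℝ :=
  ∑ n ∈ Finset.Icc 1 ⌊x⌋₊, ((ArithmeticFunction.moebius n : ℤ) : ℝ)

/-- The coefficients of the power series in the explicit formula (`r 0 = 0`). -/
noncomputable def r (n : ℕ) : ℝ :=
  (-1) ^ (n + 1) * (2 * Real.pi) ^ (2 * n) /
    (((2 * n).factorial : ℝ) * n * (riemannZeta (2 * n + 1)).re)

/-- The entire function of the explicit formula. -/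
noncomputable def R (y : ℝ) : ℝ := ∑' n : ℕ, r n * y ^ (2 * n)

end Pool.Agent.H25.MF
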