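import Pool.Agent.H25.MF.Base

/-!
Definitions for `MP_118735_nt`: duality for the Mertens function.
-/

set_option autoImplicit false

open Complex MeasureTheory Filter Topology

namespace Pool.Agent.H25.MF

/-! ## The concrete objects -/

/-- The function of the explicit formula. -/
noncomputable def N (x : ℝ) : ℝ := M x + 2 - R (1 / x)

/-- `N (e^v) e^(-v/2)`. -/
noncomputable def gf (v : ℝ) : ℝ := N (Real.exp v) * Real.exp (-(v / 2))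

/-- The reciprocal of the zeta function, with the right value at `1`. -/
noncomputable def iz (s : ℂ) : ℂ := if s = 1 then 0 else (riemannZeta s)⁻¹

/-- The sum of the principal parts at the trivial zeros. -/
noncomputable def Pf (s : ℂ) : ℂ := ∑' n : ℕ, (r n : ℂ) / (s + 2 * n)

/-- `1/(s ζ(s)) + 2/s - Pf s`, without singularity at `0` and `1`. -/
noncomputable def Y (s : ℂ) : ℂ := dslope iz 0 s - Pf s

/-- The transform of `gf`. -/
noncomputable def Hf (z : ℂ) : ℂ := Y (z + 1 / 2)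

/-- `∫_0^w (1 - cos t)/t dt`. -/
noncomputable def Cin (w : ℝ) : ℝ := ∫ t in (0 : ℝ)..w, (1 - Real.cos t) / t

/-! ## The machine -/

/-- Growth condition. -/
def Gr (g : ℝ → ℝ) : Prop :=
  Measurable g ∧ ∃ B : ℝ, ∀ v : ℝ, |g v| ≤ B * Real.exp (5 / 8 * |v|)

/-- `H` is differentiable in the two open strips. -/
def Df (H : ℂ → ℂ) : Prop := ∀ z : ℂ, 0 < |z.re| → |z.re| < 1 → DifferentiableAt ℂ H z

/-- `H` has polynomial growth in the two strips. -/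
def Bd (H : ℂ → ℂ) : Prop := ∃ (C : ℝ) (k : ℕ), ∀ z : ℂ, 0 < |z.re| → |z.re| ≤ 3 / 4 →
  ‖H z‖ ≤ C * (1 + |z.im|) ^ k / |z.re|

/-- Near the segment `i[-T, T]` the function `H` has only finitely many singularities on the
imaginary axis, which are simple poles. -/
def Lo (H : ℂ → ℂ) (T : ℝ) : Prop := ∃ (S : Finset ℝ) (a : ℝ → ℂ) (δ C : ℝ), 0 < δ ∧
  (∀ z : ℂ, 0 < |z.re| → |z.re| < δ → |z.im| ≤ T → ‖H z - ∑ γ ∈ S, a γ / (z - γ * I)‖ ≤ C) ∧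
  ∀ t : ℝ, |t| ≤ T → t ∉ S → ContinuousAt H (t * I)

/-- The hypotheses of the machine. -/
structure Hyp (g : ℝ → ℝ) (H : ℂ → ℂ) : Prop where
  gr : Gr g
  df : Df H
  bd : Bd H
  plus : ∀ t : ℝ, H (((3 / 4 : ℝ) : ℂ) + t * I) =
    ∫ v in Set.Ioi (0 : ℝ), (g v : ℂ) * cexp (-((((3 / 4 : ℝ) : ℂ) + t * I) * v))
  minus : ∀ t : ℝ, H (((-(3 / 4) : ℝ) : ℂ) + t * I) =
    - ∫ v in Set.Iio (0 : ℝ), (g v : ℂ) * cexp (-((((-(3 / 4) : ℝ) : ℂ) + t * I) * v))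
  lo : ∀ T : ℝ, Lo H T

/-- The Gaussian density. -/
noncomputable def gs (τ v : ℝ) : ℝ :=
  (τ * √(2 * Real.pi))⁻¹ * Real.exp (-(v ^ 2 / (2 * τ ^ 2)))

/-- Gaussian smoothing. -/
noncomputable def sm (g : ℝ → ℝ) (τ v : ℝ) : ℝ := ∫ u, g u * gs τ (v - u)

/-- Gaussian smoothing of the right part. -/
noncomputable def smp (g : ℝ → ℝ) (τ v : ℝ) : ℝ := ∫ u in Set.Ioi (0 : ℝ), g u * gs τ (v - u)

/-- Gaussian smoothing of the left part. -/
noncomputable def smm (g : ℝ → ℝ) (τ v : ℝ) : ℝ := ∫ u in Set.Iio (0 : ℝ), g u * gs τ (v - u)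

/-- The contour integral on the line `Re z = σ`. -/
noncomputable def rep (H : ℂ → ℂ) (τ σ v : ℝ) : ℂ :=
  (2 * Real.pi : ℂ)⁻¹ *
    ∫ t : ℝ, H (σ + t * I) * cexp ((σ + t * I) * v + τ ^ 2 * (σ + t * I) ^ 2 / 2)

/-- A nonnegative kernel whose Fourier transform `Kh` is supported in `[-T, T]`. -/
structure Ker (K : ℝ → ℝ) (Kh : ℝ → ℂ) (T : ℝ) : Prop where
  cont : Continuous K
  nonneg : ∀ v, 0 ≤ K v
  int : Integrable K
  mass : ∫ v, K v = 1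
  mom : Integrable (fun v => |v| * K v)
  conth : Continuous Kh
  supp : ∀ t, T ≤ |t| → Kh t = 0
  ft : ∀ t : ℝ, ∫ v : ℝ, (K v : ℂ) * cexp (-(t * v * I)) = Kh t

/-- The left side of the smoothed formula. -/
noncomputable def lft (H : ℂ → ℂ) (K : ℝ → ℝ) (τ v₀ δ : ℝ) : ℂ :=
  ∫ v : ℝ, rep H τ δ v * cexp (-(δ * v)) * K (v₀ - v)

/-- The right side of the smoothed formula. -/
noncomputable def rgt (H : ℂ → ℂ) (Kh : ℝ → ℂ) (τ v₀ δ : ℝ) : ℂ :=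
  (2 * Real.pi : ℂ)⁻¹ *
    ∫ t : ℝ, H (δ + t * I) * cexp (τ ^ 2 * (δ + t * I) ^ 2 / 2) * cexp (t * v₀ * I) * Kh t

/-- `limsup g ≤ c` at `+∞`. -/
def EvLe (g : ℝ → ℝ) (c : ℝ) : Prop := ∀ ε : ℝ, 0 < ε → ∀ᶠ v in atTop, g v ≤ c + ε

/-! ## Combinations -/

/-- The combination of translates belonging to `∑ c a * N (a x)`. -/
noncomputable def gL (J : Finset ℝ) (c : ℝ → ℝ) (g : ℝ → ℝ) (v : ℝ) : ℝ :=
  ∑ a ∈ J, c a * √a * g (v + Real.log a)

/-- The Dirichlet polynomial of the combination. -/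
noncomputable def DL (J : Finset ℝ) (c : ℝ → ℝ) (z : ℂ) : ℂ :=
  ∑ a ∈ J, (c a : ℂ) * (a : ℂ) ^ (z + 1 / 2)

/-- The correction. -/
noncomputable def JL (J : Finset ℝ) (c : ℝ → ℝ) (g : ℝ → ℝ) (z : ℂ) : ℂ :=
  ∑ a ∈ J, (c a : ℂ) * (a : ℂ) ^ (z + 1 / 2) *
    ∫ u in (0 : ℝ)..Real.log a, (g u : ℂ) * cexp (-(z * u))

/-- The transform of the combination. -/
noncomputable def HL (J : Finset ℝ) (c : ℝ → ℝ) (g : ℝ → ℝ) (H : ℂ → ℂ) (z : ℂ) : ℂ :=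
  DL J c z * H z - JL J c g z

/-- The coefficients and dilations are positive and the largest dilation dominates. -/
def Dom (J : Finset ℝ) (c : ℝ → ℝ) (A : ℝ) : Prop :=
  A ∈ J ∧ (∀ a ∈ J, 0 < a ∧ a ≤ A) ∧ ∑ a ∈ J.erase A, |c a| * √a < |c A| * √A

end Pool.Agent.H25.MF
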