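import Pool.Agent.H25.MF.Targets

/-!
Final assembly for board mf.
-/

set_option autoImplicit false

open Complex MeasureTheory Filter Topology

namespace Pool.Agent.H25.MF

/-! ## Extended real upper limits -/

theorem limsup_le_real (f : ℝ → ℝ) (k : ℝ) :
    limsup (fun x => (f x : EReal)) atTop ≤ (k : EReal) ↔
      ∀ ε : ℝ, 0 < ε → ∀ᶠ x in atTop, f x ≤ k + ε := by
  rw [limsup_le_iff]
  constructor
  · intro h ε hε
    have h1 := h ((k + ε : ℝ) : EReal) (by exact_mod_cast (by linarith : k < k + ε))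
    filter_upwards [h1] with x hx
    exact (EReal.coe_lt_coe_iff.mp hx).le
  · intro h y hy
    obtain ⟨q, hq1, hq2⟩ := EReal.lt_iff_exists_real_btwn.mp hy
    have hq1' : k < q := EReal.coe_lt_coe_iff.mp hq1
    have h1 := h (q - k) (by linarith)
    filter_upwards [h1] with x hx
    refine lt_of_le_of_lt ?_ hq2
    exact_mod_cast (by linarith : f x ≤ q)

theorem iSup_le_real {ι : Sort*} (f : ι → ℝ) (k : ℝ) :
    (⨆ i, (f i : EReal)) ≤ (k : EReal) ↔ ∀ i, f i ≤ k := by
  rw [iSup_le_iff]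
  simp only [EReal.coe_le_coe_iff]

theorem ereal_eq {a b : EReal} (h : ∀ k : ℝ, a ≤ k ↔ b ≤ k) : a = b := by
  apply le_antisymm
  · rw [← EReal.le_of_forall_lt_iff_le]
    intro z hz
    exact (h z).mpr hz.le
  · rw [← EReal.le_of_forall_lt_iff_le]
    intro z hz
    exact (h z).mp hz.le

theorem liminf_neg_real (f : ℝ → ℝ) :
    liminf (fun x => (f x : EReal)) atTop = -limsup (fun x => ((-f x : ℝ) : EReal)) atTop := by
  have h : (fun x => ((-f x : ℝ) : EReal)) = -(fun x => (f x : EReal)) := by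
    funext x
    simp
  rw [h, EReal.limsup_neg, neg_neg]

theorem iInf_neg_real {ι : Sort*} (f : ι → ℝ) :
    (⨅ i, (f i : EReal)) = -⨆ i, ((-f i : ℝ) : EReal) := by
  apply le_antisymm
  · rw [EReal.le_neg]
    apply iSup_le
    intro i
    rw [EReal.coe_neg]
    exact EReal.neg_le_neg_iff.mpr (iInf_le _ i)
  · apply le_iInf
    intro i
    rw [EReal.neg_le]
    have := le_iSup (fun i => ((-f i : ℝ) : EReal)) i
    simpa using this

/-! ## The two sides -/

theorem gL_eq (J : Finset ℝ) (c : ℝ → ℝ) (hJ : ∀ a ∈ J, 0 < a) (x : ℝ) (hx : 0 < x) :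
    ∑ a ∈ J, c a * N (a * x) = gL J c gf (Real.log x) * √x := by
  rw [gL, Finset.sum_mul]
  refine Finset.sum_congr rfl fun a ha => ?_
  have ha0 := hJ a ha
  have h1 : Real.exp (Real.log x + Real.log a) = a * x := by
    rw [Real.exp_add, Real.exp_log hx, Real.exp_log ha0, mul_comm]
  have h2 : √a * Real.exp (-((Real.log x + Real.log a) / 2)) * √x = 1 := by
    have h3 : √a * √x = Real.exp ((Real.log x + Real.log a) / 2) := by
      rw [← Real.sqrt_mul ha0.le, ← h1, Real.sqrt_eq_rpow, ← Real.exp_mul]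
      ring_nf
    have h4 : √a * Real.exp (-((Real.log x + Real.log a) / 2)) * √x =
        (√a * √x) * Real.exp (-((Real.log x + Real.log a) / 2)) := by ring
    rw [h4, h3, ← Real.exp_add]
    simp
  rw [gf, h1]
  calc c a * N (a * x) = c a * N (a * x) * 1 := by ring
    _ = c a * N (a * x) * (√a * Real.exp (-((Real.log x + Real.log a) / 2)) * √x) := by rw [h2]
    _ = _ := by ring

theorem gL_le (J : Finset ℝ) (c : ℝ → ℝ) (hJ : ∀ a ∈ J, 0 < a) (k : ℝ)
    (h : ∀ x : ℝ, 0 < x → ∑ a ∈ J, c a * N (a * x) ≤ k * √x) (v : ℝ) : gL J c gf v ≤ k := by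
  have h1 := h (Real.exp v) (Real.exp_pos v)
  rw [gL_eq J c hJ _ (Real.exp_pos v), Real.log_exp] at h1
  exact le_of_mul_le_mul_right h1 (Real.sqrt_pos.mpr (Real.exp_pos v))

/-- One-sided bounds for a dominated combination at infinity hold for the completed combination
everywhere. -/
theorem comb (hHP : T_HP) (hHA : T_HA) (hAB : T_AB) (hFX : T_FX) (hEV : T_EV)
    (J : Finset ℝ) (c : ℝ → ℝ) (A : ℝ) (hD : Dom J c A) (k : ℝ) :
    (∀ ε : ℝ, 0 < ε → ∀ᶠ x in atTop, ∑ a ∈ J, c a * M (a * x) ≤ (k + ε) * √x) ↔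
      ∀ x : ℝ, 0 < x → ∑ a ∈ J, c a * N (a * x) ≤ k * √x := by
  have hJ : ∀ a ∈ J, 0 < a := fun a ha => (hD.2.1 a ha).1
  rw [hEV.1 J c hJ k]
  constructor
  · intro h
    obtain ⟨V, hV⟩ := eventually_atTop.mp (h 1 one_pos)
    have hy : Hyp gf Hf := hHP J c A hD (k + 1) V (fun v hv => hV v hv.le)
    exact hFX J c hJ k (hAB _ _ (hHA J c hJ gf Hf hy) k h)
  · intro h ε hε
    refine Eventually.of_forall fun v => ?_
    linarith [gL_le J c hJ k h v]

/-- The same at the other end, without combinations. -/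
theorem dual (hHM : T_HM) (hSY : T_SY) (hAB : T_AB) (hFX : T_FX) (hEV : T_EV)
    (e : ℝ) (he : e = 1 ∨ e = -1) (k : ℝ) :
    (∀ ε : ℝ, 0 < ε → ∀ᶠ y in atTop, e * (√y * (2 - R y)) ≤ k + ε) ↔
      ∀ x : ℝ, 0 < x → e * N x ≤ k * √x := by
  have hJ : ∀ a ∈ ({1} : Finset ℝ), 0 < a := by simp
  have hgL : gL {1} (fun _ => e) gf = fun v => e * gf v := by
    funext v
    simp [gL]
  rw [hEV.2 e k]
  constructor
  · intro h
    obtain ⟨V, hV⟩ := eventually_atTop.mp (h 1 one_pos)
    have hy : Hyp gf Hf := hHM e he (k + 1) V (fun v hv => hV v hv.le)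
    have hy1 := hSY.1 gf Hf hy
    have hle : ∀ v : ℝ, ContinuousAt (fun v => e * gf (-v)) v → e * gf (-v) ≤ k := by
      rcases he with rfl | rfl
      · have h2 : (fun v => (1 : ℝ) * gf (-v)) = fun v => gf (-v) := by
          funext v; ring
        rw [h2] at h ⊢
        intro v hv
        have := hAB _ _ hy1 k h v hv
        linarith
      · have h2 : (fun v => (-1 : ℝ) * gf (-v)) = fun v => -gf (-v) := by
          funext v; ring
        rw [h2] at h ⊢
        intro v hv
        have := hAB _ _ (hSY.2.1 _ _ hy1) k h v hv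
        linarith
    have h3 := hFX {1} (fun _ => e) hJ k (by
      rw [hgL]
      intro v hv
      have h4 := hle (-v) (by
        have h5 : ContinuousAt (fun w : ℝ => -w) (-v) := continuousAt_neg
        have h6 : ContinuousAt (fun v => e * gf v) (-(-v)) := by rwa [neg_neg]
        exact ContinuousAt.comp' (f := fun w : ℝ => -w) h6 h5)
      simpa using h4)
    intro x hx
    simpa using h3 x hx
  · intro h ε hε
    have h1 := gL_le {1} (fun _ => e) hJ k (by
      intro x hx
      simpa using h x hx)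
    rw [hgL] at h1
    refine Eventually.of_forall fun v => ?_
    have := h1 (-v)
    simp only at this
    linarith

end Pool.Agent.H25.MF
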