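import Pool.Agent.H25.MF.FIN

/-!
Final statements for board mf.
-/

set_option autoImplicit false

open Complex MeasureTheory Filter Topology

namespace Pool.Agent.H25.MF

/-- Hypotheses of the assembly. -/
structure All : Prop where
  hHP : T_HP
  hHM : T_HM
  hHA : T_HA
  hAB : T_AB
  hFX : T_FX
  hEV : T_EV
  hSY : T_SY
  hRB : T_RB

theorem div_sqrt_le (a k x : ℝ) (hx : 0 < x) : a / √x ≤ k ↔ a ≤ k * √x := by
  rw [div_le_iff₀ (Real.sqrt_pos.mpr hx)]

theorem sup_comb (h : All) (J : Finset ℝ) (c : ℝ → ℝ) (A : ℝ) (hD : Dom J c A) :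
    limsup (fun x : ℝ => (((∑ a ∈ J, c a * M (a * x)) / √x : ℝ) : EReal)) atTop =
      ⨆ x : {x : ℝ // 0 < x}, (((∑ a ∈ J, c a * (M (a * x) + 2 - R (1 / (a * x)))) / √x : ℝ) :
        EReal) := by
  apply ereal_eq
  intro k
  rw [limsup_le_real, iSup_le_real]
  have h1 := comb h.hHP h.hHA h.hAB h.hFX h.hEV J c A hD k
  constructor
  · intro h2 x
    rw [div_sqrt_le _ _ _ x.2]
    refine h1.mp ?_ x x.2
    intro ε hε
    filter_upwards [h2 ε hε, eventually_gt_atTop (0 : ℝ)] with x hx hx0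
    rwa [div_sqrt_le _ _ _ hx0] at hx
  · intro h2 ε hε
    have h3 := h1.mpr (fun x hx => by
      have := h2 ⟨x, hx⟩
      rwa [div_sqrt_le _ _ _ hx] at this) ε hε
    filter_upwards [h3, eventually_gt_atTop (0 : ℝ)] with x hx hx0
    rwa [div_sqrt_le _ _ _ hx0]

theorem dom_neg {J : Finset ℝ} {c : ℝ → ℝ} {A : ℝ} (hD : Dom J c A) :
    Dom J (fun a => -c a) A := by
  refine ⟨hD.1, hD.2.1, ?_⟩
  simpa only [abs_neg] using hD.2.2

theorem inf_comb (h : All) (J : Finset ℝ) (c : ℝ → ℝ) (A : ℝ) (hD : Dom J c A) :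
    liminf (fun x : ℝ => (((∑ a ∈ J, c a * M (a * x)) / √x : ℝ) : EReal)) atTop =
      ⨅ x : {x : ℝ // 0 < x}, (((∑ a ∈ J, c a * (M (a * x) + 2 - R (1 / (a * x)))) / √x : ℝ) :
        EReal) := by
  rw [liminf_neg_real, iInf_neg_real]
  have h1 := sup_comb h J (fun a => -c a) A (dom_neg hD)
  simp only [neg_mul, Finset.sum_neg_distrib, neg_div] at h1
  rw [h1]

theorem dom_one (e : ℝ) (he : e ≠ 0) : Dom {1} (fun _ => e) 1 := by
  refine ⟨by simp, by simp, ?_⟩
  simp [he]

theorem sup_one (h : All) :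
    limsup (fun x : ℝ => ((M x / √x : ℝ) : EReal)) atTop =
      ⨆ x : {x : ℝ // 0 < x}, (((M x + 2 - R (1 / x)) / √x : ℝ) : EReal) := by
  have h1 := sup_comb h {1} (fun _ => 1) 1 (dom_one 1 one_ne_zero)
  simpa only [Finset.sum_singleton, one_mul] using h1

theorem inf_one (h : All) :
    liminf (fun x : ℝ => ((M x / √x : ℝ) : EReal)) atTop =
      ⨅ x : {x : ℝ // 0 < x}, (((M x + 2 - R (1 / x)) / √x : ℝ) : EReal) := by
  have h1 := inf_comb h {1} (fun _ => 1) 1 (dom_one 1 one_ne_zero)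
  simpa only [Finset.sum_singleton, one_mul] using h1

theorem sup_dual (h : All) :
    limsup (fun y : ℝ => ((√y * (2 - R y) : ℝ) : EReal)) atTop =
      ⨆ x : {x : ℝ // 0 < x}, (((M x + 2 - R (1 / x)) / √x : ℝ) : EReal) := by
  apply ereal_eq
  intro k
  rw [limsup_le_real, iSup_le_real]
  have h1 := dual h.hHM h.hSY h.hAB h.hFX h.hEV 1 (Or.inl rfl) k
  simp only [one_mul] at h1
  rw [h1]
  constructor
  · intro h2 x
    rw [div_sqrt_le _ _ _ x.2]
    exact h2 x x.2
  · intro h2 x hx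
    have := h2 ⟨x, hx⟩
    rwa [div_sqrt_le _ _ _ hx] at this

theorem inf_dual (h : All) :
    liminf (fun y : ℝ => ((√y * (2 - R y) : ℝ) : EReal)) atTop =
      ⨅ x : {x : ℝ // 0 < x}, (((M x + 2 - R (1 / x)) / √x : ℝ) : EReal) := by
  rw [liminf_neg_real, iInf_neg_real]
  congr 1
  apply ereal_eq
  intro k
  rw [limsup_le_real, iSup_le_real]
  have h1 := dual h.hHM h.hSY h.hAB h.hFX h.hEV (-1) (Or.inr rfl) k
  simp only [neg_mul, one_mul] at h1
  rw [h1]
  constructor
  · intro h2 x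
    rw [← neg_div, div_sqrt_le _ _ _ x.2]
    exact h2 x x.2
  · intro h2 x hx
    have := h2 ⟨x, hx⟩
    rwa [← neg_div, div_sqrt_le _ _ _ hx] at this

/-- The duality theorem. -/
theorem duality (h : All) :
    (limsup (fun x : ℝ => ((M x / √x : ℝ) : EReal)) atTop =
        limsup (fun y : ℝ => ((√y * (2 - R y) : ℝ) : EReal)) atTop ∧
      limsup (fun x : ℝ => ((M x / √x : ℝ) : EReal)) atTop =
        ⨆ x : {x : ℝ // 0 < x}, (((M x + 2 - R (1 / x)) / √x : ℝ) : EReal)) ∧
    (liminf (fun x : ℝ => ((M x / √x : ℝ) : EReal)) atTop =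
        liminf (fun y : ℝ => ((√y * (2 - R y) : ℝ) : EReal)) atTop ∧
      liminf (fun x : ℝ => ((M x / √x : ℝ) : EReal)) atTop =
        ⨅ x : {x : ℝ // 0 < x}, (((M x + 2 - R (1 / x)) / √x : ℝ) : EReal)) :=
  ⟨⟨(sup_one h).trans (sup_dual h).symm, sup_one h⟩,
    ⟨(inf_one h).trans (inf_dual h).symm, inf_one h⟩⟩

/-! ## Short intervals -/

theorem dom_two (a e : ℝ) (ha : 1 < a) (he : |e| = 1) :
    Dom {1, a} (fun t => if t = 1 then -e else e) a := by
  refine ⟨by simp, ?_, ?_⟩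
  · intro b hb
    simp only [Finset.mem_insert, Finset.mem_singleton] at hb
    rcases hb with rfl | rfl
    · exact ⟨one_pos, ha.le⟩
    · exact ⟨by linarith, le_rfl⟩
  · have h1 : ({1, a} : Finset ℝ).erase a = {1} := by
      ext t
      simp only [Finset.mem_erase, Finset.mem_insert, Finset.mem_singleton]
      constructor
      · rintro ⟨h1, h2 | h2⟩
        · exact h2
        · exact absurd h2 h1
      · rintro rfl
        exact ⟨ha.ne, Or.inl rfl⟩
    rw [h1]
    simp only [Finset.sum_singleton, if_true, ha.ne', if_false, abs_neg, he, one_mul]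
    exact Real.sqrt_lt_sqrt one_pos.le ha

theorem two_not (h : All) (a e k : ℝ) (ha : 1 < a) (he : |e| = 1) (x₀ : ℝ) (hx₀ : 0 < x₀)
    (hk : k * √x₀ < e * (N (a * x₀) - N x₀)) :
    ∃ᶠ x in atTop, k * √x ≤ e * (M (a * x) - M x) := by
  by_contra hcon
  rw [not_frequently] at hcon
  have h1 := (comb h.hHP h.hHA h.hAB h.hFX h.hEV {1, a} (fun t => if t = 1 then -e else e) a
    (dom_two a e ha he) k).mp (by
      intro ε hε
      filter_upwards [hcon] with x hx
      have hx2 : e * (M (a * x) - M x) < k * √x := not_le.mp hx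
      rw [Finset.sum_pair ha.ne]
      simp only [if_true, ha.ne', if_false, one_mul]
      have h3 : 0 ≤ ε * √x := by positivity
      nlinarith) x₀ hx₀
  rw [Finset.sum_pair ha.ne] at h1
  simp only [if_true, ha.ne', if_false, one_mul] at h1
  linarith

theorem M_zero {x : ℝ} (h : x < 1) : M x = 0 := by
  have h1 : ⌊x⌋₊ = 0 := Nat.floor_eq_zero.mpr h
  simp [M, h1]

theorem M_one {x : ℝ} (h1 : 1 ≤ x) (h2 : x < 2) : M x = 1 := by
  have h3 : ⌊x⌋₊ = 1 := by
    rw [Nat.floor_eq_iff (by linarith)]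
    norm_num
    exact ⟨h1, h2⟩
  simp [M, h3]

theorem M_two : M 2 = 0 := by
  have h3 : ⌊(2 : ℝ)⌋₊ = 2 := by
    rw [Nat.floor_eq_iff (by norm_num)]
    norm_num
  rw [M, h3]
  have h4 : Finset.Icc 1 2 = {1, 2} := by decide
  rw [h4, Finset.sum_pair (by norm_num)]
  have h5 : ArithmeticFunction.moebius 2 = -1 := by
    rw [ArithmeticFunction.moebius_apply_prime Nat.prime_two]
  simp [h5]

/-- Large jumps in all short intervals. -/
theorem short (h : All) (ε : ℝ) (hε : 0 < ε) : ∃ a₀ : ℝ, 1 < a₀ ∧ ∀ a : ℝ, 1 < a → a < a₀ →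
    (∃ᶠ x in atTop, (1 - ε) * √x ≤ M (a * x) - M x) ∧
    (∃ᶠ x in atTop, M (a * x) - M x ≤ -((1 / √2 - ε) * √x)) := by
  have hc : Continuous R := h.hRB.1
  -- first point
  have h1 : Tendsto (fun a : ℝ => 1 - R 1 + R a - (1 - ε) * √(1 / a)) (𝓝 1) (𝓝 ε) := by
    have h2 : ContinuousAt (fun a : ℝ => 1 - R 1 + R a - (1 - ε) * √(1 / a)) 1 := by
      refine ContinuousAt.sub (ContinuousAt.add continuousAt_const hc.continuousAt) ?_
      refine continuousAt_const.mul (ContinuousAt.sqrt ?_)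
      exact continuousAt_const.div continuousAt_id one_ne_zero
    have h3 : (1 : ℝ) - R 1 + R 1 - (1 - ε) * √(1 / 1) = ε := by
      simp
    simpa only [h3] using h2.tendsto
  have h2 : Tendsto (fun a : ℝ => 1 - R (a / 2) + R (1 / 2) - (1 / √2 - ε) * √(2 / a)) (𝓝 1)
      (𝓝 (ε * √2)) := by
    have h2 : ContinuousAt (fun a : ℝ => 1 - R (a / 2) + R (1 / 2) - (1 / √2 - ε) * √(2 / a)) 1 := by
      refine ContinuousAt.sub (ContinuousAt.add (ContinuousAt.sub continuousAt_const ?_)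
        continuousAt_const) ?_
      · exact ContinuousAt.comp' (f := fun a : ℝ => a / 2) hc.continuousAt
          (continuousAt_id.div_const 2)
      refine continuousAt_const.mul (ContinuousAt.sqrt ?_)
      exact continuousAt_const.div continuousAt_id one_ne_zero
    have h3 : (1 : ℝ) - R (1 / 2) + R (1 / 2) - (1 / √2 - ε) * √(2 / 1) = ε * √2 := by
      have h4 : √(2 : ℝ) ≠ 0 := by positivity
      rw [div_one]
      field_simp
      ring
    simpa only [h3] using h2.tendsto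
  have h3 : ∀ᶠ a in 𝓝 (1 : ℝ), 0 < 1 - R 1 + R a - (1 - ε) * √(1 / a) ∧
      0 < 1 - R (a / 2) + R (1 / 2) - (1 / √2 - ε) * √(2 / a) ∧ a < 2 :=
    (h1.eventually_const_lt hε).and ((h2.eventually_const_lt (by positivity)).and
      (eventually_lt_nhds (by norm_num)))
  obtain ⟨a₀, ha₀, hsub⟩ := exists_Ico_subset_of_mem_nhds h3 ⟨2, by norm_num⟩
  refine ⟨a₀, ha₀, fun a ha1 ha2 => ?_⟩
  obtain ⟨h4, h5, h6⟩ := hsub ⟨ha1.le, ha2⟩
  have ha0 : 0 < a := by linarith
  constructor
  · have h7 := two_not h a 1 (1 - ε) ha1 (by simp) (1 / a) (by positivity) (by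
      have e1 : a * (1 / a) = 1 := by field_simp
      rw [e1, N, N, M_one le_rfl (by norm_num), M_zero (by rw [div_lt_one ha0]; exact ha1)]
      simp only [one_div, inv_inv, inv_one, one_mul]
      simp only [one_div] at h4
      linarith)
    simpa using h7
  · have h7 := two_not h a (-1) (1 / √2 - ε) ha1 (by simp) (2 / a) (by positivity) (by
      have e1 : a * (2 / a) = 2 := by field_simp
      rw [e1, N, N, M_two, M_one (by rw [le_div_iff₀ ha0]; linarith)
        (by rw [div_lt_iff₀ ha0]; linarith)]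
      rw [one_div_div]
      linarith)
    refine h7.mono fun x hx => ?_
    linarith

end Pool.Agent.H25.MF
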