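import Pool.Agent.H25.MF.Targets

/-!
Rows HY, HP, HM of board mf.
-/

set_option autoImplicit false

open Complex MeasureTheory Filter Topology

namespace Pool.Agent.H25.MF

/-- `Hf` is analytic at `z` if `zeta` has no zero at `z + 1/2`. -/
theorem hf_an (hYA : T_YA) (z : ℂ) (h1 : -(3 / 2) < z.re)
    (h2 : z + 1 / 2 = 1 ∨ riemannZeta (z + 1 / 2) ≠ 0) : AnalyticAt ℂ Hf z := by
  have h3 : AnalyticAt ℂ Y (z + 1 / 2) := by
    apply hYA.2 _ _ h2
    simp
    linarith
  have h4 : AnalyticAt ℂ (fun w : ℂ => w + 1 / 2) z := analyticAt_id.add analyticAt_const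
  exact AnalyticAt.fun_comp (f := fun w : ℂ => w + 1 / 2) h3 h4

theorem pf_HY (hRB : T_RB) (hGT : T_GT) (hYA : T_YA) (hNV : T_NV) (hLO : T_LO) : T_HY := by
  intro hR hbr hbl
  have hL : NZL := hNV.mp hR
  have hdf : Df Hf := by
    intro z hz1 hz2
    have hz3 : z.re ≠ 0 := abs_pos.mp hz1
    obtain ⟨h5, h6⟩ := abs_lt.mp hz2
    refine (hf_an hYA z (by linarith) ?_).differentiableAt
    by_cases h1 : z + 1 / 2 = 1
    · exact Or.inl h1
    right
    have hre : (z + 1 / 2).re = z.re + 1 / 2 := by simp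
    rcases lt_or_gt_of_ne hz3 with h | h
    · apply hL
      · rw [hre]
        linarith
      · rw [hre]
        linarith
    · apply hR _ _ h1
      rw [hre]
      linarith
  have hbd : Bd Hf := by
    obtain ⟨k1, C1, h1⟩ := hbr
    obtain ⟨k2, C2, h2⟩ := hbl
    refine ⟨|C1| + |C2|, k1 + k2, fun z hz1 hz2 => ?_⟩
    have hz3 : z.re ≠ 0 := abs_pos.mp hz1
    obtain ⟨h5, h6⟩ := abs_le.mp hz2
    have hb : (1 : ℝ) ≤ 1 + |z.im| := by linarith [abs_nonneg z.im]
    have hp1 : (1 + |z.im|) ^ k1 ≤ (1 + |z.im|) ^ (k1 + k2) :=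
      pow_le_pow_right₀ hb (by omega)
    have hp2 : (1 + |z.im|) ^ k2 ≤ (1 + |z.im|) ^ (k1 + k2) :=
      pow_le_pow_right₀ hb (by omega)
    have hp0 : (0 : ℝ) ≤ (1 + |z.im|) ^ k1 := by positivity
    have hp0' : (0 : ℝ) ≤ (1 + |z.im|) ^ k2 := by positivity
    rcases lt_or_gt_of_ne hz3 with h | h
    · refine (h2 z h5 h).trans ?_
      gcongr ?_ / _
      calc C2 * (1 + |z.im|) ^ k2 ≤ |C2| * (1 + |z.im|) ^ k2 := by
            gcongr
            exact le_abs_self _
        _ ≤ (|C1| + |C2|) * (1 + |z.im|) ^ (k1 + k2) := by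
            gcongr
            linarith [abs_nonneg C1]
    · refine (h1 z h h6).trans ?_
      rw [abs_of_pos h]
      gcongr ?_ / _
      calc C1 * (1 + |z.im|) ^ k1 ≤ |C1| * (1 + |z.im|) ^ k1 := by
            gcongr
            exact le_abs_self _
        _ ≤ (|C1| + |C2|) * (1 + |z.im|) ^ (k1 + k2) := by
            gcongr
            linarith [abs_nonneg C2]
  refine ⟨hRB.2.2, hdf, hbd, fun t => ?_, fun t => ?_, hLO hdf hbd⟩
  · apply hGT.1
    simp
    norm_num
  · apply hGT.2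
    · simp
      norm_num
    · simp
      norm_num

end Pool.Agent.H25.MF
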