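import Pool.Agent.H25.MF.Defs

/-!
Module targets for `MP_118735_nt`: duality for the Mertens function.
-/

set_option autoImplicit false

open Complex MeasureTheory Filter Topology

namespace Pool.Agent.H25.MF

/-! ## Part A, the machine -/

/-- GI. Gaussian integral on a vertical line. -/
def T_GI : Prop := ∀ τ σ w : ℝ, 0 < τ →
  (2 * Real.pi : ℂ)⁻¹ * ∫ t : ℝ, cexp ((σ + t * I) * w + τ ^ 2 * (σ + t * I) ^ 2 / 2) =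
    (gs τ w : ℂ)

/-- FR. The contour integral represents the smoothed function. -/
def T_FR : Prop := ∀ (g : ℝ → ℝ) (H : ℂ → ℂ), Hyp g H → ∀ τ v : ℝ, 0 < τ →
  (smp g τ v : ℂ) = rep H τ (3 / 4) v ∧ (smm g τ v : ℂ) = -rep H τ (-(3 / 4)) v

/-- SL. The line of integration can be moved. -/
def T_SL : Prop := ∀ H : ℂ → ℂ, Df H → Bd H → ∀ τ v δ : ℝ, 0 < τ → 0 < δ → δ ≤ 3 / 4 →
  rep H τ (3 / 4) v = rep H τ δ v ∧ rep H τ (-(3 / 4)) v = rep H τ (-δ) v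

/-- GB. Bounds for the two parts of the smoothed function. -/
def T_GB : Prop := ∀ (g : ℝ → ℝ) (H : ℂ → ℂ), Hyp g H → ∀ τ : ℝ, 0 < τ → ∃ C : ℝ, ∀ v : ℝ,
  |smp g τ v| ≤ C * (1 + |v|) ∧ |smp g τ v| ≤ C * Real.exp (3 / 4 * v) ∧
  |smm g τ v| ≤ C * (1 + |v|) ∧ |smm g τ v| ≤ C * Real.exp (-(3 / 4 * v))

/-- TF. Exchange of the integrals. -/
def T_TF : Prop := ∀ H : ℂ → ℂ, Df H → Bd H → ∀ (τ δ v₀ T : ℝ) (K : ℝ → ℝ) (Kh : ℝ → ℂ),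
  0 < τ → 0 < |δ| → |δ| ≤ 3 / 4 → Ker K Kh T → lft H K τ v₀ δ = rgt H Kh τ v₀ δ

/-- TL. Limit of the left side. -/
def T_TL : Prop := ∀ (g : ℝ → ℝ) (H : ℂ → ℂ), Hyp g H → ∀ (τ v₀ T : ℝ) (K : ℝ → ℝ) (Kh : ℝ → ℂ),
  0 < τ → Ker K Kh T →
  Tendsto (fun δ : ℝ => lft H K τ v₀ δ - lft H K τ v₀ (-δ)) (𝓝[>] 0)
    (𝓝 (((∫ v, sm g τ v * K (v₀ - v) : ℝ)) : ℂ))

/-- TR. Limit of the right side. -/
def T_TR : Prop := ∀ (H : ℂ → ℂ) (T : ℝ), Df H → Lo H T → ∀ (τ : ℝ) (Kh : ℝ → ℂ), 0 < τ →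
  Continuous Kh → (∀ t, T ≤ |t| → Kh t = 0) →
  ∃ (S : Finset ℝ) (a : ℝ → ℂ), ∀ v₀ : ℝ,
    Tendsto (fun δ : ℝ => rgt H Kh τ v₀ δ - rgt H Kh τ v₀ (-δ)) (𝓝[>] 0)
      (𝓝 (∑ γ ∈ S, a γ * cexp (γ * v₀ * I)))

/-- KE. Existence of a kernel. -/
def T_KE : Prop := ∃ (K : ℝ → ℝ) (Kh : ℝ → ℂ), Ker K Kh 1

/-- RE. Trigonometric polynomials return, uniformly. -/
def T_RE : Prop := ∀ (S : Finset ℝ) (a : ℝ → ℂ) (ε : ℝ), 0 < ε → ∃ L : ℝ, 0 < L ∧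
  ∀ v₀ V : ℝ, ∃ v : ℝ, V ≤ v ∧ v ≤ V + L ∧
    ‖∑ γ ∈ S, a γ * cexp (γ * v * I) - ∑ γ ∈ S, a γ * cexp (γ * v₀ * I)‖ < ε

/-- SP. Continuity of the smoothed functions. -/
def T_SP : Prop := ∀ g : ℝ → ℝ, Gr g → ∀ τ : ℝ, 0 < τ →
  Continuous (smp g τ) ∧ Continuous (smm g τ) ∧ ∀ v, sm g τ v = smp g τ v + smm g τ v

/-- LP. Smoothing does not increase the upper limit. -/
def T_LP : Prop := ∀ g : ℝ → ℝ, Gr g → ∀ c τ : ℝ, EvLe g c → 0 < τ → EvLe (sm g τ) c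

/-- LK. Convolution with the kernel does not increase the upper limit. -/
def T_LK : Prop := ∀ P : ℝ → ℝ, Continuous P → (∃ C : ℝ, ∀ v, |P v| ≤ C * (1 + |v|)) →
  ∀ c : ℝ, EvLe P c → ∀ (K : ℝ → ℝ) (Kh : ℝ → ℂ) (T : ℝ), Ker K Kh T →
  EvLe (fun v₀ => ∫ v, P v * K (v₀ - v)) c

/-- AT. The scaled kernels are an approximate identity. -/
def T_AT : Prop := ∀ P : ℝ → ℝ, Continuous P → (∃ C : ℝ, ∀ v, |P v| ≤ C * (1 + |v|)) →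
  ∀ (K : ℝ → ℝ) (Kh : ℝ → ℂ), Ker K Kh 1 → ∀ v₀ : ℝ,
  Tendsto (fun T : ℝ => ∫ v, P v * (T * K (T * (v₀ - v)))) atTop (𝓝 (P v₀))

/-- AG. The Gaussians are an approximate identity. -/
def T_AG : Prop := ∀ g : ℝ → ℝ, Gr g → ∀ v : ℝ, ContinuousAt g v →
  Tendsto (fun τ : ℝ => sm g τ v) (𝓝[>] 0) (𝓝 (g v))

/-- SY. Symmetries and scaling. -/
def T_SY : Prop :=
  (∀ (g : ℝ → ℝ) (H : ℂ → ℂ), Hyp g H → Hyp (fun v => g (-v)) (fun z => -H (-z))) ∧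
  (∀ (g : ℝ → ℝ) (H : ℂ → ℂ), Hyp g H → Hyp (fun v => -g v) (fun z => -H z)) ∧
  (∀ (K : ℝ → ℝ) (Kh : ℝ → ℂ), Ker K Kh 1 → ∀ T : ℝ, 0 < T →
    Ker (fun v => T * K (T * v)) (fun t => Kh (t / T)) T)

/-- TP. The smoothed function, convolved with a kernel, is a trigonometric polynomial. -/
def T_TP : Prop := ∀ (g : ℝ → ℝ) (H : ℂ → ℂ), Hyp g H → ∀ (τ T : ℝ) (K : ℝ → ℝ) (Kh : ℝ → ℂ),
  0 < τ → Ker K Kh T → ∃ (S : Finset ℝ) (a : ℝ → ℂ), ∀ v₀ : ℝ,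
    (((∫ v, sm g τ v * K (v₀ - v) : ℝ)) : ℂ) = ∑ γ ∈ S, a γ * cexp (γ * v₀ * I)

/-- AB. The machine. -/
def T_AB : Prop := ∀ (g : ℝ → ℝ) (H : ℂ → ℂ), Hyp g H → ∀ c : ℝ, EvLe g c →
  ∀ v : ℝ, ContinuousAt g v → g v ≤ c

/-! ## Part B, Landau's theorem -/

/-- LA. Landau's theorem for Laplace integrals. -/
def T_LA : Prop := ∀ (f : ℝ → ℝ) (V σ₀ σ₁ σ₂ : ℝ) (Φ : ℂ → ℂ), σ₁ ≤ σ₀ → σ₀ < σ₂ →
  (∀ t, V < t → 0 ≤ f t) →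
  IntegrableOn (fun t : ℝ => f t * Real.exp (-(σ₀ * t))) (Set.Ioi 0) →
  (∀ σ : ℝ, σ₁ ≤ σ → σ ≤ σ₀ → AnalyticAt ℂ Φ σ) →
  (∀ z : ℂ, σ₀ < z.re → z.re < σ₂ →
    Φ z = ∫ t in Set.Ioi (0 : ℝ), (f t : ℂ) * cexp (-(z * t))) →
  IntegrableOn (fun t : ℝ => f t * Real.exp (-(σ₁ * t))) (Set.Ioi 0)

/-- RL. One-sided bounds give continuation to the half plane. -/
def T_RL : Prop := ∀ (h : ℝ → ℝ) (c V : ℝ) (Φ : ℂ → ℂ), Gr h → (∀ v, V < v → h v ≤ c) →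
  (∀ z : ℂ, 5 / 8 < z.re → z.re < 1 →
    Φ z = ∫ v in Set.Ioi (0 : ℝ), (h v : ℂ) * cexp (-(z * v))) →
  (∀ x : ℝ, 0 ≤ x → x ≤ 3 / 4 → AnalyticAt ℂ Φ x) →
  ∃ (F : ℂ → ℂ) (C : ℝ), (∀ z : ℂ, 0 < z.re → DifferentiableAt ℂ F z) ∧
    (∀ z : ℂ, 5 / 8 < z.re → z.re < 1 → F z = Φ z) ∧
    ∀ z : ℂ, 0 < z.re → z.re ≤ 3 / 4 → ‖F z‖ ≤ C / z.re

/-! ## Part C, the concrete functions -/

/-- ME. Transform of the Mertens function. -/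
def T_ME : Prop := ∀ s : ℂ, 1 < s.re →
  IntegrableOn (fun v : ℝ => (M (Real.exp v) : ℂ) * cexp (-(s * v))) (Set.Ioi 0) ∧
  ∫ v in Set.Ioi (0 : ℝ), (M (Real.exp v) : ℂ) * cexp (-(s * v)) = 1 / (s * riemannZeta s)

/-- CM. -/
def T_CM : Prop := ∀ s : ℂ, -1 < s.re → s.re < 0 →
  IntegrableOn (fun w : ℝ => ((1 - Real.cos w : ℝ) : ℂ) * (w : ℂ) ^ (s - 1)) (Set.Ioi 0) ∧
  ∫ w in Set.Ioi (0 : ℝ), ((1 - Real.cos w : ℝ) : ℂ) * (w : ℂ) ^ (s - 1) =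
    -(Complex.Gamma s * Complex.cos (Real.pi * s / 2))

/-- CN. Elementary properties of `Cin`. -/
def T_CN : Prop := Continuous Cin ∧
  (∀ w : ℝ, HasSum (fun n : ℕ => (-1) ^ (n + 1) * w ^ (2 * n) /
    (((2 * n).factorial : ℝ) * (2 * n))) (Cin w)) ∧
  (∀ w : ℝ, 0 ≤ w → 0 ≤ Cin w ∧ Cin w ≤ w ^ 2 / 4) ∧
  ∃ C : ℝ, ∀ w : ℝ, 0 ≤ w → Cin w ≤ C * w ^ (1 / 8 : ℝ)

/-- CO. Mellin transform of `Cin`. -/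
def T_CO : Prop := ∀ s : ℂ, -1 < s.re → s.re < -(1 / 8) →
  IntegrableOn (fun w : ℝ => (Cin w : ℂ) * (w : ℂ) ^ (s - 1)) (Set.Ioi 0) ∧
  ∫ w in Set.Ioi (0 : ℝ), (Cin w : ℂ) * (w : ℂ) ^ (s - 1) =
    Complex.Gamma s * Complex.cos (Real.pi * s / 2) / s

/-- RS. `R` as a sum over the Moebius function. -/
def T_RS : Prop := (∀ y : ℝ, Summable (fun n : ℕ => |r n * y ^ (2 * n)|)) ∧
  ∀ y : ℝ, 0 < y → HasSum (fun m : ℕ => ((ArithmeticFunction.moebius m : ℤ) : ℝ) / m *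
    Cin (2 * Real.pi * y / m)) (R y / 2)

/-- RB. Bounds. -/
def T_RB : Prop := Continuous R ∧ (∃ C : ℝ, ∀ y : ℝ, 0 < y →
  |R y| ≤ C * y ^ (1 / 8 : ℝ) ∧ |R y| ≤ C * y ^ 2) ∧ Gr gf

/-- MR. Mellin transform of `R`. -/
def T_MR : Prop := ∀ s : ℂ, -1 < s.re → s.re < -(1 / 8) →
  IntegrableOn (fun y : ℝ => (R y : ℂ) * (y : ℂ) ^ (s - 1)) (Set.Ioi 0) ∧
  ∫ y in Set.Ioi (0 : ℝ), (R y : ℂ) * (y : ℂ) ^ (s - 1) = 1 / (s * riemannZeta s)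

/-- PS. The function `Pf`. -/
def T_PS : Prop := (∀ s : ℂ, -1 < s.re →
    IntegrableOn (fun v : ℝ => (R (Real.exp (-v)) : ℂ) * cexp (-(s * v))) (Set.Ioi 0) ∧
    ∫ v in Set.Ioi (0 : ℝ), (R (Real.exp (-v)) : ℂ) * cexp (-(s * v)) = Pf s) ∧
  (∀ s : ℂ, -1 < s.re → AnalyticAt ℂ Pf s) ∧ ∃ C : ℝ, ∀ s : ℂ, -1 < s.re → ‖Pf s‖ ≤ C

/-- GT. The transforms of `gf`. -/
def T_GT : Prop :=
  (∀ z : ℂ, 5 / 8 < z.re → Hf z = ∫ v in Set.Ioi (0 : ℝ), (gf v : ℂ) * cexp (-(z * v))) ∧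
  (∀ z : ℂ, -1 < z.re → z.re < -(5 / 8) →
    Hf z = -∫ v in Set.Iio (0 : ℝ), (gf v : ℂ) * cexp (-(z * v)))

/-- YA. Analyticity of `Y`. -/
def T_YA : Prop := (∀ s : ℂ, s ≠ 0 → Y s = (iz s + 2) / s - Pf s) ∧
  ∀ s : ℂ, -1 < s.re → (s = 1 ∨ riemannZeta s ≠ 0) → AnalyticAt ℂ Y s

/-- RN. No real zeros. -/
def T_RN : Prop := ∀ σ : ℝ, -(1 / 2) < σ → σ ≠ 1 → riemannZeta (σ : ℂ) ≠ 0

/-- No zeros to the right of the critical line. -/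
def NZR : Prop := ∀ s : ℂ, 1 / 2 < s.re → s ≠ 1 → riemannZeta s ≠ 0

/-- No zeros to the left of the critical line (near it). -/
def NZL : Prop := ∀ s : ℂ, -(1 / 2) < s.re → s.re < 1 / 2 → riemannZeta s ≠ 0

/-- Bound on the right. -/
def BR (k : ℕ) : Prop := ∃ C : ℝ, ∀ z : ℂ, 0 < z.re → z.re ≤ 3 / 4 →
  ‖Hf z‖ ≤ C * (1 + |z.im|) ^ k / z.re

/-- Bound on the left. -/
def BL (k : ℕ) : Prop := ∃ C : ℝ, ∀ z : ℂ, -(3 / 4) ≤ z.re → z.re < 0 →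
  ‖Hf z‖ ≤ C * (1 + |z.im|) ^ k / |z.re|

/-- HG. Continuation to the right half plane. -/
def T_HG : Prop := ∀ G : ℂ → ℂ, (∀ z : ℂ, 0 < z.re → DifferentiableAt ℂ G z) →
  (∀ z : ℂ, 5 / 8 < z.re → z.re < 1 → G z = Hf z) →
  NZR ∧ ∀ z : ℂ, 0 < z.re → G z = Hf z

/-- HH. Continuation to the left. -/
def T_HH : Prop := ∀ G : ℂ → ℂ, (∀ z : ℂ, z.re < 0 → DifferentiableAt ℂ G z) →
  (∀ z : ℂ, -1 < z.re → z.re < -(5 / 8) → G z = Hf z) →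
  NZL ∧ ∀ z : ℂ, -1 < z.re → z.re < 0 → G z = Hf z

/-- NV. Symmetry of the zeros. -/
def T_NV : Prop := NZR ↔ NZL

/-- GR. The functional equation with bounds. -/
def T_GR : Prop := ∃ (C : ℝ) (k : ℕ),
  (∀ s : ℂ, -(1 / 4) ≤ s.re → s.re < 1 / 2 → 1 / 8 ≤ ‖s‖ →
    ‖iz s / s‖ ≤ C * (1 + |s.im|) ^ k * ‖iz (1 - s) / (1 - s)‖) ∧
  (∀ s : ℂ, 1 / 2 < s.re → s.re ≤ 5 / 4 → 1 / 8 ≤ ‖1 - s‖ →
    ‖iz s / s‖ ≤ C * (1 + |s.im|) ^ k * ‖iz (1 - s) / (1 - s)‖)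

/-- RF. Reflection of the bounds. -/
def T_RF : Prop := NZR → NZL → ((BR 0 → ∃ k, BL k) ∧ (BL 0 → ∃ k, BR k))

/-- LO. Local structure near the critical line. -/
def T_LO : Prop := Df Hf → Bd Hf → ∀ T : ℝ, Lo Hf T

/-- HA. Combinations satisfy the hypotheses of the machine. -/
def T_HA : Prop := ∀ (J : Finset ℝ) (c : ℝ → ℝ), (∀ a ∈ J, 0 < a) →
  ∀ (g : ℝ → ℝ) (H : ℂ → ℂ), Hyp g H → Hyp (gL J c g) (HL J c g H)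

/-- TC. The transform of a combination, pointwise in `z`. -/
def T_TC : Prop := ∀ (J : Finset ℝ) (c : ℝ → ℝ), (∀ a ∈ J, 0 < a) →
  ∀ (g : ℝ → ℝ) (H : ℂ → ℂ), Gr g →
  Gr (gL J c g) ∧
  (∀ z : ℂ, 5 / 8 < z.re →
    H z = ∫ v in Set.Ioi (0 : ℝ), (g v : ℂ) * cexp (-(z * v)) →
    HL J c g H z = ∫ v in Set.Ioi (0 : ℝ), (gL J c g v : ℂ) * cexp (-(z * v))) ∧
  (∀ z : ℂ, z.re < -(5 / 8) →
    H z = -∫ v in Set.Iio (0 : ℝ), (g v : ℂ) * cexp (-(z * v)) →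
    HL J c g H z = -∫ v in Set.Iio (0 : ℝ), (gL J c g v : ℂ) * cexp (-(z * v)))

/-- DO. The dominated Dirichlet polynomial is bounded below, and the correction is entire. -/
def T_DO : Prop :=
  (∀ (J : Finset ℝ) (c : ℝ → ℝ) (A : ℝ), Dom J c A →
    (∀ z : ℂ, 0 ≤ z.re → DL J c z ≠ 0) ∧
    ∃ κ : ℝ, 0 < κ ∧ ∀ z : ℂ, 0 ≤ z.re → z.re ≤ 3 / 4 → κ ≤ ‖DL J c z‖) ∧
  ∀ (J : Finset ℝ) (c : ℝ → ℝ), (∀ a ∈ J, 0 < a) → ∀ g : ℝ → ℝ, Gr g →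
    Differentiable ℂ (DL J c) ∧ Differentiable ℂ (JL J c g) ∧
    ∃ C : ℝ, ∀ z : ℂ, |z.re| ≤ 1 → ‖DL J c z‖ ≤ C ∧ ‖JL J c g z‖ ≤ C

/-- HY. Assembly of the hypotheses of the machine. -/
def T_HY : Prop := NZR → (∃ k, BR k) → (∃ k, BL k) → Hyp gf Hf

/-- HP. One-sided bounds at `+∞` for a combination give the hypotheses of the machine. -/
def T_HP : Prop := ∀ (J : Finset ℝ) (c : ℝ → ℝ) (A : ℝ), Dom J c A → ∀ k V : ℝ,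
  (∀ v, V < v → gL J c gf v ≤ k) → Hyp gf Hf

/-- HM. One-sided bounds at `-∞` give the hypotheses of the machine. -/
def T_HM : Prop := ∀ e : ℝ, (e = 1 ∨ e = -1) → ∀ k V : ℝ,
  (∀ v, V < v → e * gf (-v) ≤ k) → Hyp gf Hf

/-- FX. From continuity points to all points. -/
def T_FX : Prop := ∀ (J : Finset ℝ) (c : ℝ → ℝ), (∀ a ∈ J, 0 < a) → ∀ k : ℝ,
  (∀ v, ContinuousAt (gL J c gf) v → gL J c gf v ≤ k) →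
  ∀ x : ℝ, 0 < x → ∑ a ∈ J, c a * N (a * x) ≤ k * √x

/-- EV. Translation of the one-sided bounds. -/
def T_EV : Prop :=
  (∀ (J : Finset ℝ) (c : ℝ → ℝ), (∀ a ∈ J, 0 < a) → ∀ k : ℝ,
    ((∀ ε : ℝ, 0 < ε → ∀ᶠ x in atTop, ∑ a ∈ J, c a * M (a * x) ≤ (k + ε) * √x) ↔
      EvLe (gL J c gf) k)) ∧
  (∀ e k : ℝ, ((∀ ε : ℝ, 0 < ε → ∀ᶠ y in atTop, e * (√y * (2 - R y)) ≤ k + ε) ↔
      EvLe (fun v => e * gf (-v)) k))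

end Pool.Agent.H25.MF
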